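import Pool.Agent.Lib.MP_8fca14_co.Six.PRJ
import Pool.Agent.Lib.MP_8fca14_co.Brouwer

set_option autoImplicit false

/-!
# BR2: Brouwer's theorem for compact convex sets of a finite dimensional normed space
-/

namespace Pool.Agent.Lib.MP_8fca14_co.Six

open Set

theorem brouwer_convex {W : Type*} [NormedAddCommGroup W] [NormedSpace ℝ W]
    [FiniteDimensional ℝ W] (K : Set W) (hK : IsCompact K) (hc : Convex ℝ K)
    (hne : K.Nonempty) (F : W → W) (hF : ContinuousOn F K) (hm : MapsTo F K K) :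
    ∃ w ∈ K, F w = w := by
  classical
  set n := Module.finrank ℝ W with hn
  set e : W ≃L[ℝ] EuclideanSpace ℝ (Fin n) := toEuclidean with he
  set K' : Set (EuclideanSpace ℝ (Fin n)) := e '' K with hK'
  have hK'c : IsCompact K' := hK.image e.continuous
  have hK'v : Convex ℝ K' := hc.linear_image e.toLinearEquiv.toLinearMap
  obtain ⟨ρ, ρc, ρm, ρf⟩ := exists_retraction K' hK'c hK'v (hne.image e)
  have hin : ∀ x, e.symm (ρ x) ∈ K := by
    intro x
    obtain ⟨w, hw, hwe⟩ := ρm x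
    rw [← hwe, e.symm_apply_apply]
    exact hw
  set G : (Fin n → ℝ) → (Fin n → ℝ) :=
    fun x => WithLp.ofLp (e (F (e.symm (ρ (WithLp.toLp 2 x))))) with hG
  have c0 : Continuous fun x : Fin n → ℝ => e.symm (ρ (WithLp.toLp 2 x)) :=
    e.symm.continuous.comp (ρc.comp (PiLp.continuous_toLp 2 _))
  have c1 : Continuous fun x : Fin n → ℝ => F (e.symm (ρ (WithLp.toLp 2 x))) :=
    hF.comp_continuous c0 (fun x => hin _)
  have c2 : Continuous G := (PiLp.continuous_ofLp 2 _).comp (e.continuous.comp c1)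
  have hcomp : IsCompact (WithLp.ofLp '' K' : Set (Fin n → ℝ)) :=
    hK'c.image (PiLp.continuous_ofLp 2 _)
  obtain ⟨R, hR⟩ := hcomp.isBounded.exists_norm_le
  obtain ⟨x, hx⟩ := MP8fca14.Brw.brouwer G c2 R (fun x => hR _ ⟨_, ⟨_, hm (hin _), rfl⟩, rfl⟩)
  have h1 : e (F (e.symm (ρ (WithLp.toLp 2 x)))) = WithLp.toLp 2 x := by
    have := congrArg (WithLp.toLp 2) hx
    simpa [hG] using this
  have h2 : WithLp.toLp 2 x ∈ K' := by
    rw [← h1]
    exact ⟨_, hm (hin _), rfl⟩
  have h3 : ρ (WithLp.toLp 2 x) = WithLp.toLp 2 x := ρf _ h2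
  rw [h3] at h1
  refine ⟨e.symm (WithLp.toLp 2 x), ?_, ?_⟩
  · rw [← h3]; exact hin _
  · have := congrArg e.symm h1
    rwa [e.symm_apply_apply] at this

end Pool.Agent.Lib.MP_8fca14_co.Six
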