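import Pool.Agent.Lib.MP_8fca14_co.Six.Defs

set_option autoImplicit false

/-!
# LIN: parametrisation of a line and slices of compact convex sets
-/

namespace Pool.Agent.Lib.MP_8fca14_co.Six

open Set

theorem line_slices (ℓ : Pl →L[ℝ] ℝ) (hℓ : ℓ ≠ 0) (c : ℝ) :
    ∃ P : ℝ → Pl, (∀ t, ℓ (P t) = c) ∧ (∀ x, ℓ x = c → ∃ t, P t = x) ∧
      ∀ D : Set Pl, Convex ℝ D → IsCompact D → (∃ x ∈ D, ℓ x = c) →
        ∃ a b : ℝ, a ≤ b ∧ ∀ t, P t ∈ D ↔ a ≤ t ∧ t ≤ b := by
  -- a point with nonzero value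
  obtain ⟨e, he⟩ : ∃ e, ℓ e ≠ 0 := by
    by_contra hcon
    push Not at hcon
    exact hℓ (ContinuousLinearMap.ext fun x => by simpa using hcon x)
  -- the kernel has dimension 1
  have hrank : Module.finrank ℝ (LinearMap.ker (ℓ : Pl →ₗ[ℝ] ℝ)) = 1 := by
    have h1 := LinearMap.finrank_range_add_finrank_ker (ℓ : Pl →ₗ[ℝ] ℝ)
    have h2 : LinearMap.range (ℓ : Pl →ₗ[ℝ] ℝ) = ⊤ := by
      rw [LinearMap.range_eq_top]
      intro y
      refine ⟨(y / ℓ e) • e, ?_⟩
      show ℓ ((y / ℓ e) • e) = y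
      rw [map_smul, smul_eq_mul, div_mul_cancel₀ _ he]
    rw [h2, finrank_top] at h1
    have h3 : Module.finrank ℝ ℝ = 1 := Module.finrank_self ℝ
    have h4 : Module.finrank ℝ Pl = 2 := by simp [Pl]
    rw [h3, h4] at h1
    omega
  obtain ⟨d', hd0, hd1⟩ := finrank_eq_one_iff'.1 hrank
  set d : Pl := (d' : Pl) with hd
  have hdne : d ≠ 0 := fun h => hd0 (Subtype.ext h)
  have hld : ℓ d = 0 := d'.2
  set x0 : Pl := (c / ℓ e) • e with hx0
  have hlx0 : ℓ x0 = c := by rw [hx0, map_smul, smul_eq_mul, div_mul_cancel₀ _ he]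
  have hPc : Continuous fun t : ℝ => x0 + t • d := by fun_prop
  refine ⟨fun t => x0 + t • d, fun t => by simp [hlx0, hld], fun x hx => ?_, ?_⟩
  · have hk : x - x0 ∈ LinearMap.ker (ℓ : Pl →ₗ[ℝ] ℝ) := by
      show ℓ (x - x0) = 0
      rw [map_sub, hx, hlx0, sub_self]
    obtain ⟨t, ht⟩ := hd1 ⟨x - x0, hk⟩
    refine ⟨t, ?_⟩
    have h5 : t • d = x - x0 := congrArg Subtype.val ht
    show x0 + t • d = x
    rw [h5]
    abel
  · intro D hDc hDk hDne
    set T : Set ℝ := (fun t : ℝ => x0 + t • d) ⁻¹' D with hT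
    have hTne : T.Nonempty := by
      obtain ⟨x, hxD, hxl⟩ := hDne
      have hk : x - x0 ∈ LinearMap.ker (ℓ : Pl →ₗ[ℝ] ℝ) := by
        show ℓ (x - x0) = 0
        rw [map_sub, hxl, hlx0, sub_self]
      obtain ⟨t, ht⟩ := hd1 ⟨x - x0, hk⟩
      refine ⟨t, ?_⟩
      have h5 : t • d = x - x0 := congrArg Subtype.val ht
      show x0 + t • d ∈ D
      rw [h5, add_sub_cancel]
      exact hxD
    have hTcl : IsClosed T := hDk.isClosed.preimage hPc
    have hTbd : Bornology.IsBounded T := by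
      obtain ⟨B, hB⟩ := hDk.isBounded.exists_norm_le
      refine (Metric.isBounded_iff_subset_closedBall (0 : ℝ)).2 ⟨(B + ‖x0‖) / ‖d‖, fun t ht => ?_⟩
      rw [Metric.mem_closedBall, dist_zero_right, le_div_iff₀ (norm_pos_iff.2 hdne), ← norm_smul]
      have h6 : t • d = (x0 + t • d) - x0 := by abel
      rw [h6]
      exact (norm_sub_le _ _).trans (add_le_add (hB _ ht) le_rfl)
    have hTk : IsCompact T := Metric.isCompact_of_isClosed_isBounded hTcl hTbd
    have hTconv : Convex ℝ T := by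
      intro s hs t ht α β hα hβ hαβ
      show x0 + (α • s + β • t) • d ∈ D
      have h7 : x0 + (α • s + β • t) • d = α • (x0 + s • d) + β • (x0 + t • d) := by
        have h8 : x0 = α • x0 + β • x0 := by rw [← add_smul, hαβ, one_smul]
        calc x0 + (α • s + β • t) • d = (α • x0 + β • x0) + (α • s + β • t) • d := by rw [← h8]
          _ = α • (x0 + s • d) + β • (x0 + t • d) := by
            module
      rw [h7]
      exact hDc hs ht hα hβ hαβ
    have hoc := hTconv.ordConnected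
    refine ⟨sInf T, sSup T, csInf_le_csSup hTne hTk.bddBelow hTk.bddAbove, fun t => ⟨fun ht => ?_, fun ht => ?_⟩⟩
    · exact ⟨csInf_le hTk.bddBelow ht, le_csSup hTk.bddAbove ht⟩
    · exact hoc.out (hTk.sInf_mem hTne) (hTk.sSup_mem hTne) ht

end Pool.Agent.Lib.MP_8fca14_co.Six
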