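import Pool.Agent.Lib.MP_8fca14_co.Six.Defs

set_option autoImplicit false

/-!
# STR: the disjointness graph is a star
-/

namespace Pool.Agent.Lib.MP_8fca14_co.Six

open Set

private theorem no_of_disj {E : Type*} {A B : Set E} (h : ¬ (A ∩ B).Nonempty) {S : Set E}
    (hA : S ⊆ A) (hB : S ⊆ B) : ¬ S.Nonempty :=
  fun ⟨x, hx⟩ => h ⟨x, hA hx, hB hx⟩

theorem star_structure {V E : Type*} [Fintype V] [DecidableEq V] (C : V → Set E)
    (hne : ∀ v, (C v).Nonempty) (h43 : FourThree C) (hV : 4 ≤ Fintype.card V) :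
    (∀ u v, (C u ∩ C v).Nonempty) ∨ ∃ a₀ b₀ : V, b₀ ≠ a₀ ∧ Disjoint (C a₀) (C b₀) ∧
      ∀ u v, u ≠ a₀ → v ≠ a₀ → (C u ∩ C v).Nonempty := by
  classical
  by_cases hall : ∀ u v, (C u ∩ C v).Nonempty
  · exact Or.inl hall
  right
  push Not at hall
  obtain ⟨i, j, hij⟩ := hall
  have hij' : ¬ (C i ∩ C j).Nonempty := by rw [hij]; simp
  have hsymm : ∀ u v, ¬ (C u ∩ C v).Nonempty → ¬ (C v ∩ C u).Nonempty := by
    intro u v h
    rwa [inter_comm]
  have hneq : ∀ u v, ¬ (C u ∩ C v).Nonempty → u ≠ v := by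
    rintro u v h rfl
    rw [inter_self] at h
    exact h (hne u)
  -- no two disjoint edges
  have h2 : ∀ p q r s, p ≠ r → p ≠ s → q ≠ r → q ≠ s → ¬ (C p ∩ C q).Nonempty →
      ¬ (C r ∩ C s).Nonempty → False := by
    intro p q r s hpr hps hqr hqs hpq hrs
    rcases h43 p q r s (hneq _ _ hpq) hpr hps hqr hqs (hneq _ _ hrs) with h | h | h | h
    · exact no_of_disj hpq (fun x hx => hx.1.1) (fun x hx => hx.1.2) h
    · exact no_of_disj hpq (fun x hx => hx.1.1) (fun x hx => hx.1.2) h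
    · exact no_of_disj hrs (fun x hx => hx.1.2) (fun x hx => hx.2) h
    · exact no_of_disj hrs (fun x hx => hx.1.2) (fun x hx => hx.2) h
  -- no triangle
  have h3 : ∀ p q r, ¬ (C p ∩ C q).Nonempty → ¬ (C p ∩ C r).Nonempty →
      ¬ (C q ∩ C r).Nonempty → False := by
    intro p q r hpq hpr hqr
    obtain ⟨l, hl⟩ : ∃ l, l ∉ ({p, q, r} : Finset V) := by
      by_contra hcon
      push Not at hcon
      have h1 : (Finset.univ : Finset V) ⊆ {p, q, r} := fun x _ => hcon x
      have h2 := Finset.card_le_card h1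
      rw [Finset.card_univ] at h2
      have h3 : ({p, q, r} : Finset V).card ≤ 3 := Finset.card_le_three
      omega
    simp only [Finset.mem_insert, Finset.mem_singleton, not_or] at hl
    rcases h43 p q r l (hneq _ _ hpq) (hneq _ _ hpr) (Ne.symm hl.1) (hneq _ _ hqr)
      (Ne.symm hl.2.1) (Ne.symm hl.2.2) with h | h | h | h
    · exact no_of_disj hpq (fun x hx => hx.1.1) (fun x hx => hx.1.2) h
    · exact no_of_disj hpq (fun x hx => hx.1.1) (fun x hx => hx.1.2) h
    · exact no_of_disj hpr (fun x hx => hx.1.1) (fun x hx => hx.1.2) h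
    · exact no_of_disj hqr (fun x hx => hx.1.1) (fun x hx => hx.1.2) h
  -- either i or j is a centre
  by_cases hi : ∀ u v, u ≠ i → v ≠ i → (C u ∩ C v).Nonempty
  · exact ⟨i, j, (hneq _ _ hij').symm, by
      rw [Set.disjoint_iff_inter_eq_empty]; exact hij, hi⟩
  · refine ⟨j, i, hneq _ _ hij', by
      rw [Set.disjoint_iff_inter_eq_empty, inter_comm]; exact hij, fun u v hu hv => ?_⟩
    by_contra huv
    push Not at hi
    obtain ⟨p, q, hp, hq, hpq⟩ := hi
    have hpq' : ¬ (C p ∩ C q).Nonempty := by rw [hpq]; simp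
    -- p or q equals j
    have key : ∃ r, r ≠ i ∧ r ≠ j ∧ ¬ (C j ∩ C r).Nonempty := by
      by_cases hpj : p = j
      · subst hpj
        exact ⟨q, hq, (hneq _ _ hpq').symm, hpq'⟩
      · by_cases hqj : q = j
        · subst hqj
          exact ⟨p, hp, hpj, hsymm _ _ hpq'⟩
        · exact (h2 i j p q hp.symm hq.symm (Ne.symm hpj) (Ne.symm hqj) hij' hpq').elim
    obtain ⟨r, hri, hrj, hjr⟩ := key
    -- u or v equals i
    have key2 : ∃ s, s ≠ i ∧ s ≠ j ∧ ¬ (C i ∩ C s).Nonempty := by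
      by_cases hui : u = i
      · subst hui
        exact ⟨v, (hneq _ _ huv).symm, hv, huv⟩
      · by_cases hvi : v = i
        · subst hvi
          exact ⟨u, hui, hu, hsymm _ _ huv⟩
        · exact (h2 i j u v (Ne.symm hui) (Ne.symm hvi) (Ne.symm hu) (Ne.symm hv) hij' huv).elim
    obtain ⟨s, hsi, hsj, his⟩ := key2
    by_cases hrs : r = s
    · subst hrs
      exact h3 i j r hij' his hjr
    · exact h2 j r i s (hneq _ _ hij').symm (Ne.symm hsj) hri hrs hjr his

end Pool.Agent.Lib.MP_8fca14_co.Six
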