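import Pool.Agent.Lib.MP_8fca14_co.Six.Defs

set_option autoImplicit false

/-!
# BAR: barycentric map of a family of cliques
-/

namespace Pool.Agent.Lib.MP_8fca14_co.Six

open Set

/-- The weight of a set `σ`: positive iff all `x u` with `u ∈ σ` are positive and larger than all
`x v`, `v ∉ σ`. -/
noncomputable def cw {V : Type*} [Fintype V] [DecidableEq V] (σ : Finset V) (x : V → ℝ) : ℝ :=
  (∏ u ∈ σ, max 0 (x u)) * ∏ u ∈ σ, ∏ v ∈ σᶜ, max 0 (x u - x v)

lemma cw_cont {V : Type*} [Fintype V] [DecidableEq V] (σ : Finset V) :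
    Continuous (cw (V := V) σ) := by
  unfold cw
  fun_prop

lemma cw_nonneg {V : Type*} [Fintype V] [DecidableEq V] (σ : Finset V) (x : V → ℝ) :
    0 ≤ cw σ x := by
  unfold cw
  exact mul_nonneg (Finset.prod_nonneg fun _ _ => le_max_left _ _)
    (Finset.prod_nonneg fun _ _ => Finset.prod_nonneg fun _ _ => le_max_left _ _)

lemma cw_pos {V : Type*} [Fintype V] [DecidableEq V] {σ : Finset V} {x : V → ℝ}
    (h1 : ∀ u ∈ σ, 0 < x u) (h2 : ∀ u ∈ σ, ∀ v, v ∉ σ → x v < x u) : 0 < cw σ x := by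
  unfold cw
  refine mul_pos (Finset.prod_pos fun u hu => lt_max_of_lt_right (h1 u hu))
    (Finset.prod_pos fun u hu => Finset.prod_pos fun v hv => lt_max_of_lt_right ?_)
  have := h2 u hu v (by simpa using hv)
  linarith

lemma pos_of_cw_pos {V : Type*} [Fintype V] [DecidableEq V] {σ : Finset V} {x : V → ℝ}
    (h : 0 < cw σ x) : (∀ u ∈ σ, 0 < x u) ∧ ∀ u ∈ σ, ∀ v, v ∉ σ → x v < x u := by
  unfold cw at h
  have hne := h.ne'
  rw [mul_ne_zero_iff] at hne
  obtain ⟨h1, h2⟩ := hne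
  rw [Finset.prod_ne_zero_iff] at h1 h2
  constructor
  · intro u hu
    by_contra hc
    exact h1 u hu (max_eq_left (not_lt.mp hc))
  · intro u hu v hv
    have h3 := h2 u hu
    rw [Finset.prod_ne_zero_iff] at h3
    by_contra hc
    exact h3 v (by simpa using hv) (max_eq_left (by linarith [not_lt.mp hc]))

theorem bary_map {V E : Type*} [Fintype V] [DecidableEq V] [NormedAddCommGroup E]
    [NormedSpace ℝ E] (z : Finset V → E) :
    ∃ (s : (V → ℝ) → ℝ) (G : (V → ℝ) → E), Continuous s ∧ Continuous G ∧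
      (∀ x, 0 ≤ s x) ∧ (∀ x, (∀ v, x v ≤ 0) → s x = 0 ∧ G x = 0) ∧
      (∀ x, (∃ v, 0 < x v) → 0 < s x) ∧
      ∀ x, (∃ v, 0 < x v) → ∃ v, 0 < x v ∧
        ∀ K : Set E, Convex ℝ K → (∀ σ : Finset V, v ∈ σ → (∀ u ∈ σ, 0 < x u) → z σ ∈ K) →
          (s x)⁻¹ • G x ∈ K := by
  classical
  set T : Finset (Finset V) := Finset.univ.filter (fun σ => σ.Nonempty) with hT
  have hpos : ∀ x : V → ℝ, (∃ v, 0 < x v) → 0 < ∑ σ ∈ T, cw σ x := by
    rintro x ⟨v, hv⟩
    obtain ⟨m, -, hm⟩ := Finset.exists_max_image Finset.univ x ⟨v, Finset.mem_univ v⟩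
    have hmv : 0 < x m := lt_of_lt_of_le hv (hm v (Finset.mem_univ v))
    refine Finset.sum_pos' (fun σ _ => cw_nonneg σ x)
      ⟨Finset.univ.filter (fun u => x u = x m), ?_, ?_⟩
    · rw [hT, Finset.mem_filter]
      exact ⟨Finset.mem_univ _, ⟨m, by simp⟩⟩
    · apply cw_pos
      · intro u hu
        have : x u = x m := by simpa using hu
        rw [this]; exact hmv
      · intro u hu w hw
        have hu' : x u = x m := by simpa using hu
        have hw' : x w ≠ x m := by simpa using hw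
        rw [hu']
        exact lt_of_le_of_ne (hm w (Finset.mem_univ w)) hw'
  refine ⟨fun x => ∑ σ ∈ T, cw σ x, fun x => ∑ σ ∈ T, cw σ x • z σ, ?_, ?_, ?_, ?_, hpos, ?_⟩
  · exact continuous_finsetSum _ fun σ _ => cw_cont σ
  · exact continuous_finsetSum _ fun σ _ => (cw_cont σ).smul continuous_const
  · exact fun x => Finset.sum_nonneg fun σ _ => cw_nonneg σ x
  · intro x hx
    have h0 : ∀ σ ∈ T, cw σ x = 0 := by
      intro σ hσ
      obtain ⟨u, hu⟩ := (Finset.mem_filter.mp hσ).2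
      have h1 : ∏ u ∈ σ, max 0 (x u) = 0 :=
        Finset.prod_eq_zero (i := u) hu (max_eq_left (hx u))
      unfold cw
      rw [h1, zero_mul]
    constructor
    · exact Finset.sum_eq_zero h0
    · exact Finset.sum_eq_zero fun σ hσ => by rw [h0 σ hσ, zero_smul]
  · rintro x ⟨v, hv⟩
    obtain ⟨m, -, hm⟩ := Finset.exists_max_image Finset.univ x ⟨v, Finset.mem_univ v⟩
    have hmv : 0 < x m := lt_of_lt_of_le hv (hm v (Finset.mem_univ v))
    refine ⟨m, hmv, fun K hK hz => ?_⟩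
    have hS := hpos x ⟨v, hv⟩
    -- restrict to the sets with positive weight
    set T' : Finset (Finset V) := T.filter (fun σ => 0 < cw σ x) with hT'
    have e1 : ∑ σ ∈ T, cw σ x • z σ = ∑ σ ∈ T', cw σ x • z σ := by
      refine (Finset.sum_filter_of_ne ?_).symm
      intro σ _ hne
      exact lt_of_le_of_ne (cw_nonneg σ x) (fun h => hne (by rw [← h, zero_smul]))
    have e2 : ∑ σ ∈ T, cw σ x = ∑ σ ∈ T', cw σ x := by
      refine (Finset.sum_filter_of_ne ?_).symm
      intro σ _ hne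
      exact lt_of_le_of_ne (cw_nonneg σ x) (Ne.symm hne)
    show (∑ σ ∈ T, cw σ x)⁻¹ • ∑ σ ∈ T, cw σ x • z σ ∈ K
    rw [e1, e2, Finset.smul_sum]
    rw [e2] at hS
    have := hK.sum_mem (t := T') (w := fun σ => (∑ σ ∈ T', cw σ x)⁻¹ * cw σ x) (z := z)
      (fun σ _ => mul_nonneg (inv_nonneg.mpr hS.le) (cw_nonneg σ x))
      (by rw [← Finset.mul_sum]; exact inv_mul_cancel₀ hS.ne')
      (fun σ hσ => by
        obtain ⟨hσT, hσp⟩ := Finset.mem_filter.mp hσ
        obtain ⟨u, hu⟩ := (Finset.mem_filter.mp hσT).2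
        obtain ⟨q1, q2⟩ := pos_of_cw_pos hσp
        refine hz σ ?_ q1
        by_contra hmem
        exact absurd (hm u (Finset.mem_univ u)) (not_le.mpr (q2 u hu m hmem)))
    convert this using 2
    rw [smul_smul]

end Pool.Agent.Lib.MP_8fca14_co.Six
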