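import Pool.Agent.Lib.MP_8fca14_co.Six.Defs

set_option autoImplicit false

/-!
# HAT: coloured partitions (Freudenthal hat functions)
-/

namespace Pool.Agent.Lib.MP_8fca14_co.Six

open Set

/-- A function that is positive iff all `|u i| < 1` and all `u i - u j < 1`. -/
noncomputable def hat {d : ℕ} (u : Fin d → ℝ) : ℝ :=
  (∏ i, (max 0 (1 - u i) * max 0 (1 + u i))) * ∏ i, ∏ j, max 0 (1 - (u i - u j))

lemma hat_cont {d : ℕ} : Continuous (hat (d := d)) := by
  unfold hat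
  fun_prop

lemma hat_nonneg {d : ℕ} (u : Fin d → ℝ) : 0 ≤ hat u := by
  unfold hat
  exact mul_nonneg (Finset.prod_nonneg fun _ _ => mul_nonneg (le_max_left _ _) (le_max_left _ _))
    (Finset.prod_nonneg fun _ _ => Finset.prod_nonneg fun _ _ => le_max_left _ _)

lemma hat_pos {d : ℕ} {u : Fin d → ℝ} :
    0 < hat u ↔ (∀ i, u i < 1 ∧ -1 < u i) ∧ ∀ i j, u i - u j < 1 := by
  constructor
  · intro h
    have hne := h.ne'
    unfold hat at hne
    rw [mul_ne_zero_iff, Finset.prod_ne_zero_iff, Finset.prod_ne_zero_iff] at hne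
    obtain ⟨h1, h2⟩ := hne
    refine ⟨fun i => ?_, fun i j => ?_⟩
    · have := h1 i (Finset.mem_univ i)
      rw [mul_ne_zero_iff] at this
      constructor
      · by_contra hc
        exact this.1 (max_eq_left (by linarith [not_lt.mp hc]))
      · by_contra hc
        exact this.2 (max_eq_left (by linarith [not_lt.mp hc]))
    · have := h2 i (Finset.mem_univ i)
      rw [Finset.prod_ne_zero_iff] at this
      by_contra hc
      exact this j (Finset.mem_univ j) (max_eq_left (by linarith [not_lt.mp hc]))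
  · rintro ⟨h1, h2⟩
    unfold hat
    refine mul_pos (Finset.prod_pos fun i _ => mul_pos (lt_max_of_lt_right ?_)
      (lt_max_of_lt_right ?_)) (Finset.prod_pos fun i _ => Finset.prod_pos fun j _ =>
      lt_max_of_lt_right ?_)
    · linarith [(h1 i).1]
    · linarith [(h1 i).2]
    · linarith [h2 i j]

/-- Two lattice points with positive hats at the same point and the same colour are equal. -/
lemma hat_colour {d : ℕ} (x : Fin d → ℝ) (p q : Fin d → ℤ)
    (hp : 0 < hat (fun i => x i - p i)) (hq : 0 < hat (fun i => x i - q i))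
    (hc : ((∑ i, p i : ℤ) : ZMod (d + 1)) = ((∑ i, q i : ℤ) : ZMod (d + 1))) : p = q := by
  rw [hat_pos] at hp hq
  obtain ⟨p1, p2⟩ := hp
  obtain ⟨q1, q2⟩ := hq
  -- the differences are in `{-1,0,1}`
  have hk : ∀ i, q i - p i ≤ 1 ∧ -1 ≤ q i - p i := by
    intro i
    have a1 := p1 i
    have a2 := q1 i
    have b1 : ((q i - p i : ℤ) : ℝ) < 2 := by push_cast; linarith [a1.1, a2.2]
    have b2 : (-2 : ℝ) < ((q i - p i : ℤ) : ℝ) := by push_cast; linarith [a1.2, a2.1]
    have b1' : q i - p i < 2 := by exact_mod_cast b1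
    have b2' : -2 < q i - p i := by exact_mod_cast b2
    omega
  -- not both signs
  have hsign : ∀ i j, ¬ (q i - p i = 1 ∧ q j - p j = -1) := by
    rintro i j ⟨h1, h2⟩
    have h1' : (q i : ℝ) - p i = 1 := by exact_mod_cast h1
    have h2' : (q j : ℝ) - p j = -1 := by exact_mod_cast h2
    have := p2 i j
    have := q2 j i
    linarith
  have hdvd : ((d + 1 : ℕ) : ℤ) ∣ (∑ i, q i) - ∑ i, p i :=
    (ZMod.intCast_eq_intCast_iff_dvd_sub _ _ _).1 hc
  rw [← Finset.sum_sub_distrib] at hdvd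
  have habs : |∑ i, (q i - p i)| < ((d + 1 : ℕ) : ℤ) := by
    calc |∑ i, (q i - p i)| ≤ ∑ i, |q i - p i| := Finset.abs_sum_le_sum_abs _ _
      _ ≤ ∑ _i : Fin d, (1 : ℤ) := Finset.sum_le_sum fun i _ => abs_le.2 ⟨(hk i).2, (hk i).1⟩
      _ = d := by simp
      _ < ((d + 1 : ℕ) : ℤ) := by push_cast; omega
  have hzero : ∑ i, (q i - p i) = 0 := Int.eq_zero_of_abs_lt_dvd hdvd habs
  by_cases hpos : ∃ i, q i - p i = 1
  · obtain ⟨i, hi⟩ := hpos
    exfalso
    have hnn : ∀ j ∈ Finset.univ, 0 ≤ q j - p j := by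
      intro j _
      by_contra hcc
      exact hsign i j ⟨hi, by have := (hk j).2; omega⟩
    have := (Finset.sum_eq_zero_iff_of_nonneg hnn).1 hzero i (Finset.mem_univ i)
    omega
  · push Not at hpos
    have hnn : ∀ j ∈ Finset.univ, q j - p j ≤ 0 := by
      intro j _
      have h1 := (hk j).1
      have h2 := hpos j
      omega
    have := (Finset.sum_eq_zero_iff_of_nonpos hnn).1 hzero
    funext i
    have := this i (Finset.mem_univ i)
    omega

theorem coloured_partition {W : Type*} [NormedAddCommGroup W] [NormedSpace ℝ W]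
    [FiniteDimensional ℝ W] (d : ℕ) (hd : Module.finrank ℝ W = d) (K : Set W)
    (hK : IsCompact K) (ε : ℝ) (hε : 0 < ε) :
    ∃ (P : Finset (Fin d → ℤ)) (c : (Fin d → ℤ) → Fin (d + 1)) (h : (Fin d → ℤ) → W → ℝ),
      (∀ p, Continuous (h p)) ∧ (∀ p w, 0 ≤ h p w) ∧ (∀ w ∈ K, ∃ p ∈ P, 0 < h p w) ∧
      (∀ p w w', 0 < h p w → 0 < h p w' → dist w w' < ε) ∧
      (∀ p q w, 0 < h p w → 0 < h q w → c p = c q → p = q) := by
  classical
  have hd' : Module.finrank ℝ W = Module.finrank ℝ (Fin d → ℝ) := by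
    rw [hd, Module.finrank_fin_fun]
  set Φ : W ≃L[ℝ] (Fin d → ℝ) := ContinuousLinearEquiv.ofFinrankEq hd' with hΦ
  set C : ℝ := ‖(Φ.symm : (Fin d → ℝ) →L[ℝ] W)‖ with hC
  have hC0 : 0 ≤ C := norm_nonneg _
  obtain ⟨N, hN⟩ := exists_nat_gt (2 * C / ε)
  have hN0 : (0 : ℝ) < (N : ℝ) + 1 := by positivity
  obtain ⟨B, hB⟩ := (hK.image Φ.continuous).isBounded.exists_norm_le
  set T : ℤ := ⌈((N : ℝ) + 1) * |B|⌉ + 1 with hT
  refine ⟨Fintype.piFinset (fun _ => Finset.Icc (-T) T),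
    fun p => (((∑ i, p i : ℤ) : ZMod (d + 1)) : Fin (d + 1)),
    fun p w => hat (fun i => ((N : ℝ) + 1) * Φ w i - p i), ?_, ?_, ?_, ?_, ?_⟩
  · intro p
    refine hat_cont.comp (continuous_pi fun i => ?_)
    exact (continuous_const.mul ((continuous_apply i).comp Φ.continuous)).sub continuous_const
  · exact fun p w => hat_nonneg _
  · intro w hw
    refine ⟨fun i => ⌊((N : ℝ) + 1) * Φ w i⌋, ?_, ?_⟩
    · rw [Fintype.mem_piFinset]
      intro i
      have h1 : ‖Φ w‖ ≤ B := hB _ ⟨w, hw, rfl⟩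
      have h2 : |Φ w i| ≤ |B| := by
        calc |Φ w i| = ‖Φ w i‖ := rfl
          _ ≤ ‖Φ w‖ := norm_le_pi_norm _ i
          _ ≤ B := h1
          _ ≤ |B| := le_abs_self B
      have h3 : |((N : ℝ) + 1) * Φ w i| ≤ ((N : ℝ) + 1) * |B| := by
        rw [abs_mul, abs_of_pos hN0]
        exact mul_le_mul_of_nonneg_left h2 hN0.le
      have h4 := abs_le.1 h3
      have h5 : ((N : ℝ) + 1) * |B| ≤ (⌈((N : ℝ) + 1) * |B|⌉ : ℝ) := Int.le_ceil _
      rw [Finset.mem_Icc]
      constructor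
      · rw [Int.le_floor]
        push_cast [hT]
        linarith
      · have : (⌊((N : ℝ) + 1) * Φ w i⌋ : ℝ) ≤ ((N : ℝ) + 1) * Φ w i := Int.floor_le _
        have h6 : (⌊((N : ℝ) + 1) * Φ w i⌋ : ℝ) ≤ (T : ℝ) := by
          push_cast [hT]
          linarith
        exact_mod_cast h6
    · rw [hat_pos]
      have hfr : ∀ i, 0 ≤ ((N : ℝ) + 1) * Φ w i - (⌊((N : ℝ) + 1) * Φ w i⌋ : ℝ) ∧
          ((N : ℝ) + 1) * Φ w i - (⌊((N : ℝ) + 1) * Φ w i⌋ : ℝ) < 1 := fun i =>
        ⟨by linarith [Int.floor_le (((N : ℝ) + 1) * Φ w i)],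
          by linarith [Int.lt_floor_add_one (((N : ℝ) + 1) * Φ w i)]⟩
      exact ⟨fun i => ⟨(hfr i).2, by linarith [(hfr i).1]⟩,
        fun i j => by linarith [(hfr i).2, (hfr j).1]⟩
  · intro p w w' h1 h2
    rw [hat_pos] at h1 h2
    have hdiff : ‖Φ w - Φ w'‖ ≤ 2 / ((N : ℝ) + 1) := by
      rw [pi_norm_le_iff_of_nonneg (by positivity)]
      intro i
      rw [Pi.sub_apply, Real.norm_eq_abs, abs_le]
      have a1 := h1.1 i
      have a2 := h2.1 i
      have key : ((N : ℝ) + 1) * (Φ w i - Φ w' i) ≤ 2 ∧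
          -2 ≤ ((N : ℝ) + 1) * (Φ w i - Φ w' i) := by
        constructor <;> nlinarith [a1.1, a1.2, a2.1, a2.2]
      constructor
      · rw [neg_le, ← sub_nonneg]
        have : 0 ≤ (2 + ((N : ℝ) + 1) * (Φ w i - Φ w' i)) / ((N : ℝ) + 1) :=
          div_nonneg (by linarith [key.2]) hN0.le
        have e : (2 + ((N : ℝ) + 1) * (Φ w i - Φ w' i)) / ((N : ℝ) + 1)
            = 2 / ((N : ℝ) + 1) - -(Φ w i - Φ w' i) := by
          field_simp
          ring
        linarith [e ▸ this]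
      · rw [le_div_iff₀ hN0]
        linarith [key.1]
    have hdist : dist w w' ≤ C * (2 / ((N : ℝ) + 1)) := by
      calc dist w w' = ‖w - w'‖ := dist_eq_norm _ _
        _ = ‖(Φ.symm : (Fin d → ℝ) →L[ℝ] W) (Φ w - Φ w')‖ := by
            congr 1
            rw [← map_sub]
            exact (Φ.symm_apply_apply (w - w')).symm
        _ ≤ C * ‖Φ w - Φ w'‖ := ContinuousLinearMap.le_opNorm _ _
        _ ≤ C * (2 / ((N : ℝ) + 1)) := mul_le_mul_of_nonneg_left hdiff hC0
    refine lt_of_le_of_lt hdist ?_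
    rw [← mul_div_assoc, div_lt_iff₀ hN0]
    rw [div_lt_iff₀ hε] at hN
    nlinarith
  · intro p q w h1 h2 hc
    exact hat_colour (fun i => ((N : ℝ) + 1) * Φ w i) p q h1 h2 hc

end Pool.Agent.Lib.MP_8fca14_co.Six
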