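import Pool.Agent.Lib.MP_8fca14_co.Six.SEP
import Pool.Agent.Lib.MP_8fca14_co.Six.HAT

set_option autoImplicit false

/-!
# CM: the chain map
-/

namespace Pool.Agent.Lib.MP_8fca14_co.Six

open Set

theorem chain_map {V W : Type*} [Fintype V] [DecidableEq V] [NormedAddCommGroup W]
    [NormedSpace ℝ W] [FiniteDimensional ℝ W] (d : ℕ) (hd : Module.finrank ℝ W = d)
    (a b : V → ℝ) (hab : ∀ v, a v ≤ b v) (K : Set W) (hK : IsCompact K)
    (δ : V → W → ℝ) (hδ : ∀ v, Continuous (δ v))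
    (hch : ∀ w ∈ K, ∃ M : Finset V, M.card = d + 1 ∧ Chain a b M ∧ ∀ v ∈ M, 0 < δ v w) :
    ∃ f : W → V → ℝ, Continuous f ∧ (∀ w v, 0 ≤ f w v) ∧ (∀ w ∈ K, ∃ v, 0 < f w v) ∧
      (∀ w ∈ K, ∀ v, 0 < f w v → 0 < δ v w) ∧
      (∀ w ∈ K, ∀ u v, 0 < f w u → 0 < f w v → u ≠ v → Dis a b u v) := by
  classical
  rcases K.eq_empty_or_nonempty with hKe | ⟨w₁, hw₁⟩
  · subst hKe
    exact ⟨fun _ _ => 0, continuous_const, fun _ _ => le_rfl, fun w hw => absurd hw (by simp),
      fun w hw => absurd hw (by simp), fun w hw => absurd hw (by simp)⟩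
  obtain ⟨x, xc, hx⟩ := separation a b hab K hK δ hδ d hch
  have hV : Nonempty V := by
    obtain ⟨v, -⟩ := hx w₁ hw₁ 0 (Nat.zero_le _)
    exact ⟨v⟩
  -- the good sets
  set c : (Fin (d + 1) → V) → Set W :=
    fun φ => {w | ∀ i : Fin (d + 1), 0 < δ (φ i) w ∧ x i w < a (φ i) ∧ b (φ i) < x (i + 1) w}
    with hcdef
  have hopen : ∀ φ, IsOpen (c φ) := by
    intro φ
    have : c φ = ⋂ i : Fin (d + 1), ({w | 0 < δ (φ i) w} ∩ ({w | x i w < a (φ i)} ∩
        {w | b (φ i) < x (i + 1) w})) := by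
      ext w
      simp [hcdef]
    rw [this]
    refine isOpen_iInter_of_finite fun i => ?_
    exact (isOpen_lt continuous_const (hδ _)).inter ((isOpen_lt (xc _) continuous_const).inter
      (isOpen_lt continuous_const (xc _)))
  have hcov : K ⊆ ⋃ φ, c φ := by
    intro w hw
    have : ∀ i : Fin (d + 1), ∃ v, 0 < δ v w ∧ x i w < a v ∧ b v < x (i + 1) w :=
      fun i => hx w hw i (Nat.lt_succ_iff.1 i.2)
    choose φ hφ using this
    exact mem_iUnion.2 ⟨φ, hφ⟩
  obtain ⟨ε, hε, hleb⟩ := lebesgue_number_lemma_of_metric hK hopen hcov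
  obtain ⟨P, cl, h, h1, h2, h3, h4, h5⟩ := coloured_partition d hd K hK ε hε
  have hφ : ∀ p, ∃ φ : Fin (d + 1) → V, ∀ w ∈ K, 0 < h p w → w ∈ c φ := by
    intro p
    by_cases hp : ∃ w₀ ∈ K, 0 < h p w₀
    · obtain ⟨w₀, hw₀, hp₀⟩ := hp
      obtain ⟨φ, hφ⟩ := hleb w₀ hw₀
      exact ⟨φ, fun w _ hpw => hφ (h4 p w w₀ hpw hp₀)⟩
    · exact ⟨fun _ => Classical.choice hV, fun w hw hpw => absurd ⟨w, hw, hpw⟩ hp⟩
  choose φ hφ using hφ
  have hmono : ∀ w ∈ K, ∀ i j : ℕ, i ≤ j → j ≤ d + 1 → x i w ≤ x j w := by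
    intro w hw i j hij
    induction j, hij using Nat.le_induction with
    | base => exact fun _ => le_rfl
    | succ k hk ih =>
      intro hk'
      obtain ⟨v, -, hv1, hv2⟩ := hx w hw k (by omega)
      have := ih (by omega)
      have := hab v
      linarith
  set f : W → V → ℝ := fun w v => ∑ p ∈ P, if φ p (cl p) = v then h p w else 0 with hf
  have hfpos : ∀ w v, 0 < f w v → ∃ p ∈ P, φ p (cl p) = v ∧ 0 < h p w := by
    intro w v hfv
    by_contra hc
    push Not at hc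
    have : f w v ≤ 0 := by
      rw [hf]
      refine Finset.sum_nonpos fun p hp => ?_
      by_cases he : φ p (cl p) = v
      · rw [if_pos he]; exact hc p hp he
      · rw [if_neg he]
    linarith
  refine ⟨f, ?_, ?_, ?_, ?_, ?_⟩
  · refine continuous_pi fun v => continuous_finsetSum _ fun p _ => ?_
    by_cases he : φ p (cl p) = v
    · simp only [if_pos he]; exact h1 p
    · simp only [if_neg he]; exact continuous_const
  · intro w v
    refine Finset.sum_nonneg fun p _ => ?_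
    by_cases he : φ p (cl p) = v
    · rw [if_pos he]; exact h2 p w
    · rw [if_neg he]
  · intro w hw
    obtain ⟨p, hp, hpw⟩ := h3 w hw
    refine ⟨φ p (cl p), ?_⟩
    refine Finset.sum_pos' (fun q _ => ?_) ⟨p, hp, ?_⟩
    · by_cases he : φ q (cl q) = φ p (cl p)
      · rw [if_pos he]; exact h2 q w
      · rw [if_neg he]
    · rw [if_pos rfl]; exact hpw
  · intro w hw v hv
    obtain ⟨p, hp, he, hpw⟩ := hfpos w v hv
    rw [← he]
    exact (hφ p w hw hpw (cl p)).1
  · intro w hw u v hu hv huv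
    obtain ⟨p, hp, hpe, hpw⟩ := hfpos w u hu
    obtain ⟨q, hq, hqe, hqw⟩ := hfpos w v hv
    have hne : cl p ≠ cl q := by
      intro he
      apply huv
      rw [← hpe, ← hqe, h5 p q w hpw hqw he]
    have hp' := hφ p w hw hpw (cl p)
    have hq' := hφ q w hw hqw (cl q)
    rw [hpe] at hp'
    rw [hqe] at hq'
    rcases lt_or_gt_of_ne hne with hlt | hlt
    · left
      have hle : x ((cl p : ℕ) + 1) w ≤ x (cl q : ℕ) w :=
        hmono w hw _ _ (by exact hlt) (by have := (cl q).2; omega)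
      linarith [hp'.2.2, hq'.2.1]
    · right
      have hle : x ((cl q : ℕ) + 1) w ≤ x (cl p : ℕ) w :=
        hmono w hw _ _ (by exact hlt) (by have := (cl p).2; omega)
      linarith [hq'.2.2, hp'.2.1]

end Pool.Agent.Lib.MP_8fca14_co.Six
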