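import Pool.Agent.Lib.MP_8fca14_co.Six.Defs

set_option autoImplicit false

/-!
# INT: greedy piercing of intervals
-/

namespace Pool.Agent.Lib.MP_8fca14_co.Six

open Set

theorem interval_pierce {V : Type*} [DecidableEq V] (a b : V → ℝ) (hab : ∀ v, a v ≤ b v)
    (k : ℕ) (S : Finset V) (h : ∀ M : Finset V, M ⊆ S → Chain a b M → M.card ≤ k) :
    ∃ T : Finset ℝ, T.card ≤ k ∧ ∀ v ∈ S, ∃ t ∈ T, a v ≤ t ∧ t ≤ b v := by
  classical
  induction k generalizing S with
  | zero =>
    refine ⟨∅, by simp, fun v hv => ?_⟩
    exfalso
    have h1 := h {v} (by simpa using hv) (by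
      intro x hx y hy hxy
      rw [Finset.mem_singleton] at hx hy
      exact absurd (hx.trans hy.symm) hxy)
    simp at h1
  | succ k ih =>
    rcases S.eq_empty_or_nonempty with hS | hS
    · subst hS
      exact ⟨∅, by simp, fun v hv => by simp at hv⟩
    · obtain ⟨v0, hv0, hmin⟩ := S.exists_min_image b hS
      obtain ⟨T, hT, hT2⟩ := ih (S.filter fun v => b v0 < a v) (by
        intro M hM hch
        have hv0M : v0 ∉ M := by
          intro hc
          have h2 := (Finset.mem_filter.1 (hM hc)).2
          exact absurd (hab v0) (not_le.2 h2)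
        have h1 := h (insert v0 M) (by
          intro x hx
          rcases Finset.mem_insert.1 hx with hx | hx
          · rw [hx]; exact hv0
          · exact (Finset.mem_filter.1 (hM hx)).1) (by
          intro x hx y hy hxy
          rcases Finset.mem_insert.1 hx with hx | hx
          · rcases Finset.mem_insert.1 hy with hy | hy
            · exact absurd (hx.trans hy.symm) hxy
            · rw [hx]
              exact Or.inl (Finset.mem_filter.1 (hM hy)).2
          · rcases Finset.mem_insert.1 hy with hy | hy
            · rw [hy]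
              exact Or.inr (Finset.mem_filter.1 (hM hx)).2
            · exact hch x hx y hy hxy)
        rw [Finset.card_insert_of_notMem hv0M] at h1
        omega)
      refine ⟨insert (b v0) T, (Finset.card_insert_le _ _).trans (by omega), fun v hv => ?_⟩
      by_cases hc : b v0 < a v
      · obtain ⟨t, ht, ht2⟩ := hT2 v (Finset.mem_filter.2 ⟨hv, hc⟩)
        exact ⟨t, Finset.mem_insert_of_mem ht, ht2⟩
      · exact ⟨b v0, Finset.mem_insert_self _ _, not_lt.1 hc, hmin v hv⟩

end Pool.Agent.Lib.MP_8fca14_co.Six
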