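import Pool.Agent.Lib.MP_8fca14_co.Six.Defs

set_option autoImplicit false

/-!
# THR: 2-colourings of complete graphs without alternating 4-cycle are threshold
-/

namespace Pool.Agent.Lib.MP_8fca14_co.Six

open Set

theorem threshold {V : Type*} [DecidableEq V] (Rc : V → V → Prop)
    (hs : ∀ u v, Rc u v → Rc v u) (M : Finset V) (hM : M.Nonempty)
    (h4 : ∀ x₁ ∈ M, ∀ x₂ ∈ M, ∀ x₃ ∈ M, ∀ x₄ ∈ M, x₁ ≠ x₂ → x₁ ≠ x₃ → x₁ ≠ x₄ → x₂ ≠ x₃ →
      x₂ ≠ x₄ → x₃ ≠ x₄ → Rc x₁ x₂ → ¬ Rc x₂ x₃ → Rc x₃ x₄ → ¬ Rc x₄ x₁ → False) :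
    ∃ u ∈ M, (∀ v ∈ M, v ≠ u → Rc u v) ∨ (∀ v ∈ M, v ≠ u → ¬ Rc u v) := by
  classical
  set N : V → Finset V := fun w => M.filter fun v => v ≠ w ∧ ¬ Rc w v with hN
  obtain ⟨u, hu, hmin⟩ := M.exists_min_image (fun w => (N w).card) hM
  have memN : ∀ w v, v ∈ N w ↔ v ∈ M ∧ v ≠ w ∧ ¬ Rc w v := by
    intro w v
    simp [hN]
  by_cases he : (N u) = ∅
  · refine ⟨u, hu, Or.inl fun v hv hvu => ?_⟩
    by_contra hcon
    have : v ∈ N u := (memN u v).2 ⟨hv, hvu, hcon⟩
    rw [he] at this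
    simp at this
  · obtain ⟨x, hx⟩ := Finset.nonempty_iff_ne_empty.2 he
    obtain ⟨hxM, hxu, hxL⟩ := (memN u x).1 hx
    refine ⟨x, hxM, Or.inr fun w hw hwx hR => ?_⟩
    have hwu : w ≠ u := by
      rintro rfl
      exact hxL (hs _ _ hR)
    -- find y
    have hcard : (N u).card ≤ (N w).card := hmin w hw
    have hex : ∃ y ∈ N w, y ≠ u ∧ y ∉ N u := by
      by_contra hcon
      push Not at hcon
      -- N w \ {u} ⊆ N u \ {w} \ {x}
      have hsub : (N w).erase u ⊆ ((N u).erase w).erase x := by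
        intro y hy
        obtain ⟨hyu, hyw⟩ := Finset.mem_erase.1 hy
        have h1 := hcon y hyw hyu
        obtain ⟨hyM, hyw2, hyL⟩ := (memN w y).1 hyw
        refine Finset.mem_erase.2 ⟨?_, Finset.mem_erase.2 ⟨hyw2, h1⟩⟩
        rintro rfl
        exact hyL (hs _ _ hR)
      have hc1 := Finset.card_le_card hsub
      have hx2 : x ∈ (N u).erase w := Finset.mem_erase.2 ⟨fun h => hwx h.symm, hx⟩
      rw [Finset.card_erase_of_mem hx2] at hc1
      have hpos : 0 < ((N u).erase w).card := Finset.card_pos.2 ⟨x, hx2⟩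
      by_cases huw : u ∈ N w
      · have hwu2 : w ∈ N u := by
          obtain ⟨_, _, h3⟩ := (memN w u).1 huw
          exact (memN u w).2 ⟨hw, hwu, fun h => h3 (hs _ _ h)⟩
        rw [Finset.card_erase_of_mem huw] at hc1
        rw [Finset.card_erase_of_mem hwu2] at hc1 hpos
        omega
      · have hwu2 : w ∉ N u := by
          intro h
          obtain ⟨_, _, h3⟩ := (memN u w).1 h
          exact huw ((memN w u).2 ⟨hu, hwu.symm, fun h => h3 (hs _ _ h)⟩)
        rw [Finset.erase_eq_of_notMem huw, Finset.erase_eq_of_notMem hwu2] at hc1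
        rw [Finset.erase_eq_of_notMem hwu2] at hpos
        omega
    obtain ⟨y, hyw, hyu, hyN⟩ := hex
    obtain ⟨hyM, hyw2, hyL⟩ := (memN w y).1 hyw
    have hyR : Rc u y := by
      by_contra hcon
      exact hyN ((memN u y).2 ⟨hyM, hyu, hcon⟩)
    have hxy : x ≠ y := by
      rintro rfl
      exact hxL hyR
    -- alternating cycle : x w (R), w y (L), y u (R), u x (L)
    exact h4 x hxM w hw y hyM u hu (fun h => hwx h.symm) hxy hxu (fun h => hyw2 h.symm) hwu hyu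
      hR hyL (hs _ _ hyR) hxL

end Pool.Agent.Lib.MP_8fca14_co.Six
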