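import Pool.Agent.Lib.MP_8fca14_co.Six.GLR
import Pool.Agent.Lib.MP_8fca14_co.Six.THR
import Pool.Agent.Lib.MP_8fca14_co.Six.INT
import Pool.Agent.Lib.MP_8fca14_co.Six.LIN

set_option autoImplicit false

/-!
# m-families are pierced by four points of the line and two more points
-/

namespace Pool.Agent.Lib.MP_8fca14_co.Six

open Set

namespace MfAux

/-- A convex set which misses the line lies on one side of it. -/
theorem one_side (D : Set Pl) (hD : Convex ℝ D) (ℓ : Pl →L[ℝ] ℝ) (c : ℝ)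
    (hmiss : ∀ x ∈ D, ℓ x ≠ c) (x : Pl) (hx : x ∈ D) (hxc : c < ℓ x) (y : Pl) (hy : y ∈ D) :
    c < ℓ y := by
  by_contra hyc
  have hyc' : ℓ y < c := lt_of_le_of_ne (not_lt.1 hyc) (hmiss y hy)
  have hpos : 0 < ℓ x - ℓ y := by linarith
  set r : ℝ := (c - ℓ y) / (ℓ x - ℓ y) with hr
  have hr0 : 0 ≤ r := by rw [hr]; apply div_nonneg <;> linarith
  have hr1 : r ≤ 1 := by rw [hr, div_le_one hpos]; linarith
  have hmem : (1 - r) • y + r • x ∈ D := hD hy hx (by linarith) hr0 (by ring)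
  apply hmiss _ hmem
  rw [map_add, map_smul, map_smul, smul_eq_mul, smul_eq_mul]
  have h3 : r * (ℓ x - ℓ y) = c - ℓ y := by rw [hr]; field_simp
  linarith

end MfAux

open MfAux

theorem m_family {V : Type*} [Fintype V] [DecidableEq V] (C L R : V → Set Pl)
    (KL KR : Set Pl) (hC : ∀ v, Convex ℝ (C v)) (hCc : ∀ v, IsCompact (C v))
    (hL : ∀ v, Convex ℝ (L v)) (hR : ∀ v, Convex ℝ (R v))
    (hLc : ∀ v, IsClosed (L v)) (hRc : ∀ v, IsClosed (R v))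
    (hKL : Convex ℝ KL) (hKR : Convex ℝ KR) (hKLc : IsCompact KL) (hKRc : IsCompact KR)
    (hKL0 : KL.Nonempty) (hKR0 : KR.Nonempty)
    (ℓ : Pl →L[ℝ] ℝ) (hℓ : ℓ ≠ 0) (c : ℝ) (hm : ∀ v, ∃ x ∈ C v, ℓ x = c)
    (hpair : ∀ u v, u ≠ v → (C u ∩ C v).Nonempty) (h43 : FourThree C)
    (H1L : ∀ σ : Finset V, σ.Nonempty →
      (∀ u ∈ σ, ∀ v ∈ σ, u ≠ v → ∀ x ∈ C u ∩ C v, ℓ x < c) → ∃ z ∈ KL, ∀ v ∈ σ, z ∈ L v)
    (H1R : ∀ σ : Finset V, σ.Nonempty →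
      (∀ u ∈ σ, ∀ v ∈ σ, u ≠ v → ∀ x ∈ C u ∩ C v, c < ℓ x) → ∃ z ∈ KR, ∀ v ∈ σ, z ∈ R v) :
    ∃ P : Finset Pl, P.card ≤ 4 ∧ ∃ wL ∈ KL, ∃ wR ∈ KR,
      ∀ v, (∃ p ∈ P, p ∈ C v) ∨ wL ∈ L v ∨ wR ∈ R v := by
  classical
  obtain ⟨P, hP, hPs, hsl⟩ := line_slices ℓ hℓ c
  have hsl' : ∀ v, ∃ a b : ℝ, a ≤ b ∧ ∀ t, P t ∈ C v ↔ a ≤ t ∧ t ≤ b :=
    fun v => hsl (C v) (hC v) (hCc v) (hm v)
  choose a b hab hmem using hsl'
  set Rc : V → V → Prop := fun u v => ∃ x ∈ C u ∩ C v, c < ℓ x with hRcdef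
  have hs : ∀ u v, Rc u v → Rc v u := by
    rintro u v ⟨x, ⟨hxu, hxv⟩, hx⟩
    exact ⟨x, ⟨hxv, hxu⟩, hx⟩
  have hmiss : ∀ u v, Dis a b u v → ∀ x ∈ C u ∩ C v, ℓ x ≠ c := by
    rintro u v hd x ⟨hxu, hxv⟩ hxc
    obtain ⟨t, rfl⟩ := hPs x hxc
    have h1 := (hmem u t).1 hxu
    have h2 := (hmem v t).1 hxv
    rcases hd with hd | hd
    · linarith [h1.1, h1.2, h2.1, h2.2]
    · linarith [h1.1, h1.2, h2.1, h2.2]
  have hRall : ∀ u v, Dis a b u v → Rc u v → ∀ x ∈ C u ∩ C v, c < ℓ x := by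
    rintro u v hd ⟨y, hy, hyc⟩ x hx
    exact one_side _ ((hC u).inter (hC v)) ℓ c (hmiss u v hd) y hy hyc x hx
  have hLall : ∀ u v, Dis a b u v → ¬ Rc u v → ∀ x ∈ C u ∩ C v, ℓ x < c := by
    intro u v hd hn x hx
    have h1 : ¬ c < ℓ x := fun h => hn ⟨x, hx, h⟩
    exact lt_of_le_of_ne (not_lt.1 h1) (hmiss u v hd x hx)
  obtain ⟨wL, hwL, wR, hwR, hcard⟩ := glr a b hab Rc hs L R KL KR hL hR hLc hRc hKL hKR hKLc hKRc
    hKL0 hKR0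
    (fun σ hσ hch hn => H1L σ hσ fun u hu v hv huv => hLall u v (hch u hu v hv huv)
      (hn u hu v hv huv))
    (fun σ hσ hch hn => H1R σ hσ fun u hu v hv huv => hRall u v (hch u hu v hv huv)
      (hn u hu v hv huv))
    (fun M hM hch => by
      refine threshold Rc hs M hM ?_
      intro x₁ h₁ x₂ h₂ x₃ h₃ x₄ h₄ h12 h13 h14 h23 h24 h34 r12 r23 r34 r41
      have d12 := hRall x₁ x₂ (hch x₁ h₁ x₂ h₂ h12) r12
      have d23 := hLall x₂ x₃ (hch x₂ h₂ x₃ h₃ h23) r23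
      have d34 := hRall x₃ x₄ (hch x₃ h₃ x₄ h₄ h34) r34
      have d41 := hLall x₄ x₁ (hch x₄ h₄ x₁ h₁ h14.symm) r41
      rcases h43 x₁ x₂ x₃ x₄ h12 h13 h14 h23 h24 h34 with h | h | h | h
      · obtain ⟨p, ⟨hp1, hp2⟩, hp3⟩ := h
        exact absurd (d12 p ⟨hp1, hp2⟩) (not_lt.2 (d23 p ⟨hp2, hp3⟩).le)
      · obtain ⟨p, ⟨hp1, hp2⟩, hp3⟩ := h
        exact absurd (d12 p ⟨hp1, hp2⟩) (not_lt.2 (d41 p ⟨hp3, hp1⟩).le)
      · obtain ⟨p, ⟨hp1, hp2⟩, hp3⟩ := h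
        exact absurd (d34 p ⟨hp2, hp3⟩) (not_lt.2 (d41 p ⟨hp3, hp1⟩).le)
      · obtain ⟨p, ⟨hp1, hp2⟩, hp3⟩ := h
        exact absurd (d34 p ⟨hp2, hp3⟩) (not_lt.2 (d23 p ⟨hp1, hp2⟩).le))
  have hfin : Module.finrank ℝ Pl = 2 := by simp
  obtain ⟨T, hT, hTp⟩ := interval_pierce a b hab 4
    (Finset.univ.filter fun v => wL ∉ L v ∧ wR ∉ R v) (by
      intro M hM hch
      have := hcard M hch (fun v hv => by
        have := hM hv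
        simpa using this)
      rw [hfin] at this
      exact this)
  refine ⟨T.image P, Finset.card_image_le.trans hT, wL, hwL, wR, hwR, fun v => ?_⟩
  by_cases h1 : wL ∈ L v
  · exact Or.inr (Or.inl h1)
  · by_cases h2 : wR ∈ R v
    · exact Or.inr (Or.inr h2)
    · obtain ⟨t, ht, h3⟩ := hTp v (by simp [h1, h2])
      exact Or.inl ⟨P t, Finset.mem_image_of_mem P ht, (hmem v t).2 h3⟩

end Pool.Agent.Lib.MP_8fca14_co.Six
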