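import Pool.Agent.Lib.MP_8fca14_co.Six.Defs

set_option autoImplicit false

/-!
# Separation of disjoint convex sets of the plane
-/

namespace Pool.Agent.Lib.MP_8fca14_co.Six

open Set Pointwise

theorem separate_convex {S T : Set Pl} (hS : Convex ℝ S) (hT : Convex ℝ T)
    (hS0 : S.Nonempty) (hT0 : T.Nonempty) (hd : Disjoint S T) :
    ∃ (ℓ : Pl →L[ℝ] ℝ) (c : ℝ), ℓ ≠ 0 ∧ (∀ x ∈ S, ℓ x ≤ c) ∧ ∀ x ∈ T, c ≤ ℓ x := by
  classical
  -- it suffices to find a functional with `ℓ x ≤ ℓ y`
  suffices h : ∃ ℓ : Pl →L[ℝ] ℝ, ℓ ≠ 0 ∧ ∀ x ∈ S, ∀ y ∈ T, ℓ x ≤ ℓ y by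
    obtain ⟨ℓ, h0, h⟩ := h
    refine ⟨ℓ, sSup (ℓ '' S), h0, fun x hx => ?_, fun y hy => ?_⟩
    · obtain ⟨y, hy⟩ := hT0
      refine le_csSup ⟨ℓ y, ?_⟩ (mem_image_of_mem _ hx)
      rintro _ ⟨z, hz, rfl⟩
      exact h z hz y hy
    · refine csSup_le (hS0.image _) ?_
      rintro _ ⟨z, hz, rfl⟩
      exact h z hz y hy
  set D : Set Pl := S - T with hD
  have hDc : Convex ℝ D := hS.sub hT
  have hDne : D.Nonempty := hS0.sub hT0
  have h0D : (0 : Pl) ∉ D := by
    rintro ⟨x, hx, y, hy, hxy⟩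
    have : x = y := sub_eq_zero.1 hxy
    subst this
    exact (Set.disjoint_left.1 hd) hx hy
  by_cases hint : (interior D).Nonempty
  · obtain ⟨f, hf0, hf⟩ := geometric_hahn_banach_of_nonempty_interior_point hDc
      (fun h => h0D (interior_subset h)) hint
    refine ⟨f, hf0, fun x hx y hy => ?_⟩
    have := hf (x - y) (Set.sub_mem_sub hx hy)
    rw [map_sub, map_zero] at this
    linarith
  · rw [hDc.interior_nonempty_iff_affineSpan_eq_top] at hint
    have hdir : (affineSpan ℝ D).direction < ⊤ := by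
      rw [lt_top_iff_ne_top]
      intro h
      apply hint
      exact (AffineSubspace.direction_eq_top_iff_of_nonempty
        (hDne.mono (subset_affineSpan ℝ D))).1 h
    obtain ⟨f, hf0, hf⟩ := Submodule.exists_le_ker_of_lt_top _ hdir
    obtain ⟨d₀, hd₀⟩ := hDne
    have hconst : ∀ d ∈ D, f d = f d₀ := by
      intro d hd
      have h1 : d -ᵥ d₀ ∈ (affineSpan ℝ D).direction :=
        AffineSubspace.vsub_mem_direction (subset_affineSpan ℝ D hd)
          (subset_affineSpan ℝ D hd₀)
      have h2 := hf h1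
      rw [LinearMap.mem_ker, vsub_eq_sub, map_sub] at h2
      linarith
    rcases le_total (f d₀) 0 with hle | hle
    · refine ⟨LinearMap.toContinuousLinearMap f, fun h => hf0 ?_, fun x hx y hy => ?_⟩
      · ext1 x
        simpa using congrArg (fun g : Pl →L[ℝ] ℝ => g x) h
      · have := hconst (x - y) (Set.sub_mem_sub hx hy)
        rw [map_sub] at this
        simp only [LinearMap.coe_toContinuousLinearMap']
        linarith
    · refine ⟨LinearMap.toContinuousLinearMap (-f), fun h => hf0 ?_, fun x hx y hy => ?_⟩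
      · ext1 x
        have := congrArg (fun g : Pl →L[ℝ] ℝ => g x) h
        simpa using this
      · have := hconst (x - y) (Set.sub_mem_sub hx hy)
        rw [map_sub] at this
        simp only [LinearMap.coe_toContinuousLinearMap', LinearMap.neg_apply]
        linarith

end Pool.Agent.Lib.MP_8fca14_co.Six
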