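import Pool.Agent.Lib.MP_8fca14_co.Six.Defs
import Pool.Agent.Lib.MP_8fca14_co.Six.SEPC

set_option autoImplicit false

/-!
# The extremal cut of a pairwise intersecting family
-/

namespace Pool.Agent.Lib.MP_8fca14_co.Six

open Set

namespace CutAux

/-- Helly for four convex sets of the plane. -/
theorem helly4 (X Y Z W : Set Pl) (hX : Convex ℝ X) (hY : Convex ℝ Y) (hZ : Convex ℝ Z)
    (hW : Convex ℝ W) (h1 : (X ∩ Y ∩ Z).Nonempty) (h2 : (X ∩ Y ∩ W).Nonempty)
    (h3 : (X ∩ Z ∩ W).Nonempty) (h4 : (Y ∩ Z ∩ W).Nonempty) :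
    (X ∩ Y ∩ Z ∩ W).Nonempty := by
  classical
  let F : Fin 4 → Set Pl := ![X, Y, Z, W]
  have hF : (⋂ i ∈ (Finset.univ : Finset (Fin 4)), F i).Nonempty := by
    refine Convex.helly_theorem (𝕜 := ℝ) ?_ ?_ ?_
    · simp
    · intro i _
      fin_cases i
      · exact hX
      · exact hY
      · exact hZ
      · exact hW
    · intro I _ hI
      have hI3 : I.card = 3 := by
        rw [hI]; simp
      -- the missing index
      have hcomp : (Iᶜ).card = 1 := by
        rw [Finset.card_compl, hI3]; rfl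
      obtain ⟨m, hm⟩ := Finset.card_eq_one.1 hcomp
      have hmem : ∀ i ∈ I, i ≠ m := by
        intro i hi h
        subst h
        have : i ∈ Iᶜ := by rw [hm]; simp
        exact (Finset.mem_compl.1 this) hi
      fin_cases m
      · obtain ⟨p, ⟨hp1, hp2⟩, hp3⟩ := h4
        refine ⟨p, Set.mem_iInter₂.2 fun i hi => ?_⟩
        have := hmem i hi
        fin_cases i
        · exact absurd rfl this
        · exact hp1
        · exact hp2
        · exact hp3
      · obtain ⟨p, ⟨hp1, hp2⟩, hp3⟩ := h3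
        refine ⟨p, Set.mem_iInter₂.2 fun i hi => ?_⟩
        have := hmem i hi
        fin_cases i
        · exact hp1
        · exact absurd rfl this
        · exact hp2
        · exact hp3
      · obtain ⟨p, ⟨hp1, hp2⟩, hp3⟩ := h2
        refine ⟨p, Set.mem_iInter₂.2 fun i hi => ?_⟩
        have := hmem i hi
        fin_cases i
        · exact hp1
        · exact hp2
        · exact absurd rfl this
        · exact hp3
      · obtain ⟨p, ⟨hp1, hp2⟩, hp3⟩ := h1
        refine ⟨p, Set.mem_iInter₂.2 fun i hi => ?_⟩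
        have := hmem i hi
        fin_cases i
        · exact hp1
        · exact hp2
        · exact hp3
        · exact absurd rfl this
  obtain ⟨p, hp⟩ := hF
  rw [Set.mem_iInter₂] at hp
  exact ⟨p, ⟨⟨hp 0 (Finset.mem_univ _), hp 1 (Finset.mem_univ _)⟩, hp 2 (Finset.mem_univ _)⟩,
    hp 3 (Finset.mem_univ _)⟩

/-- weak inequality passes from the open part to the closed part -/
theorem le_of_open_part (ℓ h : Pl →L[ℝ] ℝ) (c t : ℝ) (C : Set Pl) (hC : Convex ℝ C) (s : Pl)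
    (hs : s ∈ C) (hst : h s < t) (hle : ∀ x ∈ C, h x < t → ℓ x ≤ c) (x : Pl) (hx : x ∈ C)
    (hxt : h x ≤ t) : ℓ x ≤ c := by
  by_contra hlt
  push Not at hlt
  have h1 := hle s hs hst
  have hpos : 0 < ℓ x - ℓ s := by linarith
  set r : ℝ := (ℓ x - c) / (2 * (ℓ x - ℓ s)) with hr
  have hr0 : 0 < r := by
    rw [hr]; apply div_pos <;> linarith
  have hr1 : r ≤ 1 / 2 := by
    rw [hr, div_le_iff₀ (by linarith)]
    linarith
  have hmem : (1 - r) • x + r • s ∈ C := hC hx hs (by linarith) hr0.le (by ring)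
  have hh : h ((1 - r) • x + r • s) < t := by
    rw [map_add, map_smul, map_smul, smul_eq_mul, smul_eq_mul]
    nlinarith
  have h2 := hle _ hmem hh
  rw [map_add, map_smul, map_smul, smul_eq_mul, smul_eq_mul] at h2
  have h3 : r * (ℓ x - ℓ s) = (ℓ x - c) / 2 := by
    rw [hr]; field_simp
  nlinarith

end CutAux

open CutAux

theorem cut {V : Type*} [Fintype V] [DecidableEq V] (C : V → Set Pl)
    (hC : ∀ v, Convex ℝ (C v)) (hCc : ∀ v, IsCompact (C v))
    (hpair : ∀ u v, (C u ∩ C v).Nonempty) (h43 : FourThree C) (hV : ∃ u v : V, u ≠ v) :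
    ∃ (D : V → Set Pl) (ℓ : Pl →L[ℝ] ℝ) (c : ℝ) (i j : V), ℓ ≠ 0 ∧ (∀ v, D v ⊆ C v) ∧
      (∀ v, Convex ℝ (D v)) ∧ (∀ v, IsCompact (D v)) ∧ (∀ u v, (D u ∩ D v).Nonempty) ∧
      FourThree D ∧ (∀ x ∈ D i, ℓ x ≤ c) ∧ ∀ x ∈ D j, c ≤ ℓ x := by
  classical
  set h : Pl →L[ℝ] ℝ := EuclideanSpace.proj (1 : Fin 2) with hh
  have hne : h ≠ 0 := by
    intro h0
    have := congrArg (fun g : Pl →L[ℝ] ℝ => g (EuclideanSpace.single (1 : Fin 2) (1 : ℝ))) h0
    simp [hh] at this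
  -- lowest points
  have hmin : ∀ u v, ∃ p ∈ C u ∩ C v, ∀ x ∈ C u ∩ C v, h p ≤ h x := fun u v =>
    ((hCc u).inter (hCc v)).exists_isMinOn (hpair u v) h.continuous.continuousOn
  choose m hm hm' using hmin
  obtain ⟨u₀, v₀, huv₀⟩ := hV
  have hP : ((Finset.univ : Finset (V × V)).filter (fun p => p.1 ≠ p.2)).Nonempty :=
    ⟨(u₀, v₀), by simp [huv₀]⟩
  obtain ⟨⟨a, b⟩, hab, hmax⟩ := Finset.exists_max_image _ (fun p : V × V => h (m p.1 p.2)) hP
  simp only [Finset.mem_filter, Finset.mem_univ, true_and] at hab hmax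
  set t : ℝ := h (m a b) with ht
  have hle : ∀ u v, u ≠ v → h (m u v) ≤ t := fun u v huv => hmax (u, v) huv
  have hother : ∀ u : V, ∃ v, u ≠ v := by
    intro u
    by_cases hu : u = u₀
    · exact ⟨v₀, hu ▸ huv₀⟩
    · exact ⟨u₀, hu⟩
  set H : Set Pl := {x | h x ≤ t} with hH
  have hHc : Convex ℝ H := convex_halfSpace_le h.isLinear t
  have hHcl : IsClosed H := isClosed_le h.continuous continuous_const
  have hDpair' : ∀ u v, u ≠ v → ((C u ∩ H) ∩ (C v ∩ H)).Nonempty := by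
    intro u v huv
    exact ⟨m u v, ⟨(hm u v).1, hle u v huv⟩, ⟨(hm u v).2, hle u v huv⟩⟩
  have hDpair : ∀ u v, ((C u ∩ H) ∩ (C v ∩ H)).Nonempty := by
    intro u v
    by_cases huv : u = v
    · subst huv
      obtain ⟨w, hw⟩ := hother u
      obtain ⟨p, hp, _⟩ := hDpair' u w hw
      exact ⟨p, hp, hp⟩
    · exact hDpair' u v huv
  have hDtriple : ∀ i j k, i ≠ j → i ≠ k → j ≠ k → (C i ∩ C j ∩ C k).Nonempty →
      ((C i ∩ H) ∩ (C j ∩ H) ∩ (C k ∩ H)).Nonempty := by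
    intro i j k hij hik hjk hne3
    obtain ⟨p, ⟨⟨hp1, hp2⟩, hp3⟩, hp4⟩ := helly4 (C i) (C j) (C k) H (hC i) (hC j) (hC k) hHc hne3
      ⟨m i j, ⟨(hm i j).1, (hm i j).2⟩, hle i j hij⟩
      ⟨m i k, ⟨(hm i k).1, (hm i k).2⟩, hle i k hik⟩
      ⟨m j k, ⟨(hm j k).1, (hm j k).2⟩, hle j k hjk⟩
    exact ⟨p, ⟨⟨hp1, hp4⟩, ⟨hp2, hp4⟩⟩, ⟨hp3, hp4⟩⟩
  have hD43 : FourThree (fun v => C v ∩ H) := by
    intro i j k l hij hik hil hjk hjl hkl
    rcases h43 i j k l hij hik hil hjk hjl hkl with h1 | h1 | h1 | h1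
    · exact Or.inl (hDtriple i j k hij hik hjk h1)
    · exact Or.inr (Or.inl (hDtriple i j l hij hil hjl h1))
    · exact Or.inr (Or.inr (Or.inl (hDtriple i k l hik hil hkl h1)))
    · exact Or.inr (Or.inr (Or.inr (hDtriple j k l hjk hjl hkl h1)))
  have hsub : ∀ v, C v ∩ H ⊆ C v := fun v => inter_subset_left
  have hconv : ∀ v, Convex ℝ (C v ∩ H) := fun v => (hC v).inter hHc
  have hcomp : ∀ v, IsCompact (C v ∩ H) := fun v => (hCc v).inter_right hHcl
  by_cases hSa : (C a ∩ {x | h x < t}).Nonempty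
  · by_cases hSb : (C b ∩ {x | h x < t}).Nonempty
    · have hdisj : Disjoint (C a ∩ {x | h x < t}) (C b ∩ {x | h x < t}) := by
        rw [Set.disjoint_left]
        rintro x ⟨hxa, hxt⟩ ⟨hxb, _⟩
        have := hm' a b x ⟨hxa, hxb⟩
        exact absurd hxt (not_lt.2 this)
      have hltc : Convex ℝ {x : Pl | h x < t} := convex_halfSpace_lt h.isLinear t
      obtain ⟨ℓ, c, hℓ, h1, h2⟩ := separate_convex ((hC a).inter hltc) ((hC b).inter hltc)
        hSa hSb hdisj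
      obtain ⟨s, hs, hst⟩ := hSa
      obtain ⟨s', hs', hst'⟩ := hSb
      refine ⟨fun v => C v ∩ H, ℓ, c, a, b, hℓ, hsub, hconv, hcomp, hDpair, hD43, ?_, ?_⟩
      · rintro x ⟨hx, hxt⟩
        exact le_of_open_part ℓ h c t (C a) (hC a) s hs hst (fun y hy hyt => h1 y ⟨hy, hyt⟩) x hx hxt
      · rintro x ⟨hx, hxt⟩
        have := le_of_open_part (-ℓ) h (-c) t (C b) (hC b) s' hs' hst'
          (fun y hy hyt => by
            have := h2 y ⟨hy, hyt⟩
            simpa using this) x hx hxt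
        simpa using this
    · refine ⟨fun v => C v ∩ H, h, t, b, b, hne, hsub, hconv, hcomp, hDpair, hD43, ?_, ?_⟩
      · rintro x ⟨_, hxt⟩
        exact hxt
      · rintro x ⟨hx, hxt⟩
        by_contra hlt
        exact hSb ⟨x, hx, not_le.1 hlt⟩
  · refine ⟨fun v => C v ∩ H, h, t, a, a, hne, hsub, hconv, hcomp, hDpair, hD43, ?_, ?_⟩
    · rintro x ⟨_, hxt⟩
      exact hxt
    · rintro x ⟨hx, hxt⟩
      by_contra hlt
      exact hSa ⟨x, hx, not_le.1 hlt⟩

end Pool.Agent.Lib.MP_8fca14_co.Six
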