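import Mathlib

set_option autoImplicit false

/-!
# Definitions for the bound c(4,3,2) ≤ 6
-/

namespace Pool.Agent.Lib.MP_8fca14_co.Six

/-- The plane. -/
abbrev Pl : Type := EuclideanSpace ℝ (Fin 2)

/-- The intervals `[a u, b u]` and `[a v, b v]` are disjoint. -/
def Dis {V : Type*} (a b : V → ℝ) (u v : V) : Prop := b u < a v ∨ b v < a u

/-- The intervals of the members of `M` are pairwise disjoint. -/
def Chain {V : Type*} (a b : V → ℝ) (M : Finset V) : Prop :=
  ∀ u ∈ M, ∀ v ∈ M, u ≠ v → Dis a b u v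

/-- Among any four members of the family some three have a common point. -/
def FourThree {V E : Type*} (C : V → Set E) : Prop :=
  ∀ i j k l : V, i ≠ j → i ≠ k → i ≠ l → j ≠ k → j ≠ l → k ≠ l →
    (C i ∩ C j ∩ C k).Nonempty ∨ (C i ∩ C j ∩ C l).Nonempty ∨
      (C i ∩ C k ∩ C l).Nonempty ∨ (C j ∩ C k ∩ C l).Nonempty

end Pool.Agent.Lib.MP_8fca14_co.Six
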