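import Pool.Agent.Lib.MP_8fca14_co.Six.Defs
import Pool.Agent.Lib.MP_8fca14_co.Six.BAR

set_option autoImplicit false

/-!
# GM: the map from weighted chains to pairs of points
-/

namespace Pool.Agent.Lib.MP_8fca14_co.Six

open Set

/-- The part of the weight `y` that survives the conflicts `Q`. -/
noncomputable def part {V : Type*} [Fintype V] (Q : V → V → Prop) (y : V → ℝ) (v : V) : ℝ := by
  classical
  exact max 0 (y v) * ∏ u ∈ Finset.univ.filter (fun u => u ≠ v ∧ Q u v), max 0 (y v - y u)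

lemma part_cont {V : Type*} [Fintype V] (Q : V → V → Prop) :
    Continuous (fun y : V → ℝ => part Q y) := by
  classical
  refine continuous_pi fun v => ?_
  unfold part
  fun_prop

lemma part_pos {V : Type*} [Fintype V] {Q : V → V → Prop} {y : V → ℝ} {v : V} :
    0 < part Q y v ↔ 0 < y v ∧ ∀ u, u ≠ v → Q u v → y u < y v := by
  classical
  unfold part
  constructor
  · intro h
    have hne := h.ne'
    rw [mul_ne_zero_iff, Finset.prod_ne_zero_iff] at hne
    obtain ⟨h1, h2⟩ := hne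
    constructor
    · by_contra hc
      exact h1 (max_eq_left (not_lt.mp hc))
    · intro u hu hQ
      by_contra hc
      exact h2 u (by simp [hu, hQ]) (max_eq_left (by linarith [not_lt.mp hc]))
  · rintro ⟨h1, h2⟩
    refine mul_pos (lt_max_of_lt_right h1) (Finset.prod_pos fun u hu => lt_max_of_lt_right ?_)
    have hu' : u ≠ v ∧ Q u v := by simpa using hu
    have := h2 u hu'.1 hu'.2
    linarith

lemma side_mem {E : Type*} [NormedAddCommGroup E] [NormedSpace ℝ E] {K : Set E}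
    (hK : Convex ℝ K) {e : E} (he : e ∈ K) {G : E} {S S' : ℝ} (hS : 0 ≤ S) (hS' : 0 ≤ S')
    (hm : 0 < max S S') (hG : S = 0 → G = 0) (hGK : 0 < S → S⁻¹ • G ∈ K) :
    (max S S')⁻¹ • (G + max 0 (S' - S) • e) ∈ K := by
  rcases hS.eq_or_lt with h0 | h0
  · have hG0 := hG h0.symm
    have h1 : max S S' = S' := max_eq_right (by rw [← h0]; exact hS')
    have h2 : max 0 (S' - S) = S' := by rw [← h0, sub_zero]; exact max_eq_right hS'
    rw [h1] at hm ⊢
    rw [h2, hG0, zero_add, smul_smul, inv_mul_cancel₀ hm.ne', one_smul]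
    exact he
  · have key : (max S S')⁻¹ • (G + max 0 (S' - S) • e)
        = ((max S S')⁻¹ * S) • (S⁻¹ • G) + ((max S S')⁻¹ * max 0 (S' - S)) • e := by
      rw [smul_add, smul_smul, smul_smul, mul_assoc, mul_inv_cancel₀ h0.ne', mul_one]
    rw [key]
    refine hK (hGK h0) he (by positivity) (by positivity) ?_
    rw [← mul_add]
    have : S + max 0 (S' - S) = max S S' := by
      rcases le_total S S' with h | h
      · rw [max_eq_right h, max_eq_right (by linarith)]; ring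
      · rw [max_eq_left h, max_eq_left (by linarith)]; ring
    rw [this]
    exact inv_mul_cancel₀ hm.ne'

lemma side_eq {E : Type*} [NormedAddCommGroup E] [NormedSpace ℝ E] {e : E} {G : E} {S S' : ℝ}
    (h : S' ≤ S) : (max S S')⁻¹ • (G + max 0 (S' - S) • e) = S⁻¹ • G := by
  rw [max_eq_left h, max_eq_left (by linarith), zero_smul, add_zero]

theorem g_map {V E : Type*} [Fintype V] [DecidableEq V] [NormedAddCommGroup E]
    [NormedSpace ℝ E] (a b : V → ℝ) (Rc : V → V → Prop) (hs : ∀ u v, Rc u v → Rc v u)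
    (L R : V → Set E) (KL KR : Set E) (hL : ∀ v, Convex ℝ (L v)) (hR : ∀ v, Convex ℝ (R v))
    (hKL : Convex ℝ KL) (hKR : Convex ℝ KR) (hKL0 : KL.Nonempty) (hKR0 : KR.Nonempty)
    (H1L : ∀ σ : Finset V, σ.Nonempty → Chain a b σ →
      (∀ u ∈ σ, ∀ v ∈ σ, u ≠ v → ¬ Rc u v) → ∃ z ∈ KL, ∀ v ∈ σ, z ∈ L v)
    (H1R : ∀ σ : Finset V, σ.Nonempty → Chain a b σ →
      (∀ u ∈ σ, ∀ v ∈ σ, u ≠ v → Rc u v) → ∃ z ∈ KR, ∀ v ∈ σ, z ∈ R v)
    (H2 : ∀ M : Finset V, M.Nonempty → Chain a b M →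
      ∃ u ∈ M, (∀ v ∈ M, v ≠ u → Rc u v) ∨ (∀ v ∈ M, v ≠ u → ¬ Rc u v)) :
    ∃ g : (V → ℝ) → E × E,
      ContinuousOn g {y | (∀ v, 0 ≤ y v) ∧ (∃ v, 0 < y v) ∧
        ∀ u v, 0 < y u → 0 < y v → u ≠ v → Dis a b u v} ∧
      ∀ y, (∀ v, 0 ≤ y v) → (∃ v, 0 < y v) →
        (∀ u v, 0 < y u → 0 < y v → u ≠ v → Dis a b u v) →
        (g y).1 ∈ KL ∧ (g y).2 ∈ KR ∧ ∃ v, 0 < y v ∧ ((g y).1 ∈ L v ∨ (g y).2 ∈ R v) := by
  classical
  obtain ⟨eL, heL⟩ := hKL0
  obtain ⟨eR, heR⟩ := hKR0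
  -- the chosen points
  have hzL : ∀ σ : Finset V, ∃ z : E, (σ.Nonempty → Chain a b σ →
      (∀ u ∈ σ, ∀ v ∈ σ, u ≠ v → ¬ Rc u v) → z ∈ KL ∧ ∀ v ∈ σ, z ∈ L v) := by
    intro σ
    by_cases h : σ.Nonempty ∧ Chain a b σ ∧ (∀ u ∈ σ, ∀ v ∈ σ, u ≠ v → ¬ Rc u v)
    · obtain ⟨z, h1, h2⟩ := H1L σ h.1 h.2.1 h.2.2
      exact ⟨z, fun _ _ _ => ⟨h1, h2⟩⟩
    · exact ⟨eL, fun h1 h2 h3 => absurd ⟨h1, h2, h3⟩ h⟩
  have hzR : ∀ σ : Finset V, ∃ z : E, (σ.Nonempty → Chain a b σ →
      (∀ u ∈ σ, ∀ v ∈ σ, u ≠ v → Rc u v) → z ∈ KR ∧ ∀ v ∈ σ, z ∈ R v) := by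
    intro σ
    by_cases h : σ.Nonempty ∧ Chain a b σ ∧ (∀ u ∈ σ, ∀ v ∈ σ, u ≠ v → Rc u v)
    · obtain ⟨z, h1, h2⟩ := H1R σ h.1 h.2.1 h.2.2
      exact ⟨z, fun _ _ _ => ⟨h1, h2⟩⟩
    · exact ⟨eR, fun h1 h2 h3 => absurd ⟨h1, h2, h3⟩ h⟩
  choose zL hzL using hzL
  choose zR hzR using hzR
  obtain ⟨sL, fL, sLc, fLc, sL0, sLz, sLp, sLm⟩ := bary_map zL
  obtain ⟨sR, fR, sRc, fRc, sR0, sRz, sRp, sRm⟩ := bary_map zR
  set QL : V → V → Prop := Rc with hQL
  set QR : V → V → Prop := fun u v => ¬ Rc u v with hQR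
  -- the key facts for an admissible `y`
  have pL : Continuous fun y : V → ℝ => part QL y := part_cont QL
  have pR : Continuous fun y : V → ℝ => part QR y := part_cont QR
  have hD : ∀ y : V → ℝ, (∀ v, 0 ≤ y v) → (∃ v, 0 < y v) →
      (∀ u v, 0 < y u → 0 < y v → u ≠ v → Dis a b u v) →
      0 < max (sL (part QL y)) (sR (part QR y)) := by
    rintro y h0 ⟨v, hv⟩ hch
    obtain ⟨m, -, hm⟩ := Finset.exists_max_image Finset.univ y ⟨v, Finset.mem_univ v⟩
    have hmv : 0 < y m := lt_of_lt_of_le hv (hm v (Finset.mem_univ v))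
    set M : Finset V := Finset.univ.filter (fun u => y u = y m) with hM
    have hMm : ∀ u, u ∈ M ↔ y u = y m := fun u => by simp [hM]
    obtain ⟨u, hu, hcase⟩ := H2 M ⟨m, (hMm m).2 rfl⟩ (fun u hu v hv huv =>
      hch u v (by rw [(hMm u).1 hu]; exact hmv) (by rw [(hMm v).1 hv]; exact hmv) huv)
    have hyu := (hMm u).1 hu
    rcases hcase with h | h
    · -- `u` is joined by `Rc` to the rest of `M`: the right part is positive
      apply lt_max_of_lt_right
      refine sRp _ ⟨u, part_pos.2 ⟨by rw [hyu]; exact hmv, fun w hwu hQ => ?_⟩⟩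
      rw [hyu]
      refine lt_of_le_of_ne (hm w (Finset.mem_univ w)) (fun he => ?_)
      exact hQ (hs _ _ (h w ((hMm w).2 he) hwu))
    · apply lt_max_of_lt_left
      refine sLp _ ⟨u, part_pos.2 ⟨by rw [hyu]; exact hmv, fun w hwu hQ => ?_⟩⟩
      rw [hyu]
      refine lt_of_le_of_ne (hm w (Finset.mem_univ w)) (fun he => ?_)
      exact h w ((hMm w).2 he) hwu (hs _ _ hQ)
  have cL : ∀ y : V → ℝ, (∀ u v, 0 < y u → 0 < y v → u ≠ v → Dis a b u v) →
      ∀ σ : Finset V, σ.Nonempty → (∀ u ∈ σ, 0 < part QL y u) →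
        zL σ ∈ KL ∧ ∀ v ∈ σ, zL σ ∈ L v := by
    intro y hch σ hσ hp
    refine hzL σ hσ (fun u hu v hv huv => hch u v (part_pos.1 (hp u hu)).1
      (part_pos.1 (hp v hv)).1 huv) (fun u hu v hv huv hR => ?_)
    have h1 := (part_pos.1 (hp v hv)).2 u huv hR
    have h2 := (part_pos.1 (hp u hu)).2 v (Ne.symm huv) (hs _ _ hR)
    exact lt_asymm h1 h2
  have cR : ∀ y : V → ℝ, (∀ u v, 0 < y u → 0 < y v → u ≠ v → Dis a b u v) →
      ∀ σ : Finset V, σ.Nonempty → (∀ u ∈ σ, 0 < part QR y u) →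
        zR σ ∈ KR ∧ ∀ v ∈ σ, zR σ ∈ R v := by
    intro y hch σ hσ hp
    refine hzR σ hσ (fun u hu v hv huv => hch u v (part_pos.1 (hp u hu)).1
      (part_pos.1 (hp v hv)).1 huv) (fun u hu v hv huv => ?_)
    by_contra hR
    have h1 := (part_pos.1 (hp v hv)).2 u huv hR
    have h2 := (part_pos.1 (hp u hu)).2 v (Ne.symm huv) (fun h => hR (hs _ _ h))
    exact lt_asymm h1 h2
  refine ⟨fun y => ((max (sL (part QL y)) (sR (part QR y)))⁻¹ •
      (fL (part QL y) + max 0 (sR (part QR y) - sL (part QL y)) • eL),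
      (max (sR (part QR y)) (sL (part QL y)))⁻¹ •
      (fR (part QR y) + max 0 (sL (part QL y) - sR (part QR y)) • eR)), ?_, ?_⟩
  · have c1 : Continuous fun y : V → ℝ => sL (part QL y) := sLc.comp pL
    have c2 : Continuous fun y : V → ℝ => sR (part QR y) := sRc.comp pR
    have c3 : Continuous fun y : V → ℝ => fL (part QL y) := fLc.comp pL
    have c4 : Continuous fun y : V → ℝ => fR (part QR y) := fRc.comp pR
    refine ContinuousOn.prodMk ?_ ?_
    · refine ContinuousOn.smul (ContinuousOn.inv₀ (c1.max c2).continuousOn ?_)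
        (c3.add ((continuous_const.max (c2.sub c1)).smul continuous_const)).continuousOn
      rintro y ⟨h0, h1, h2⟩
      exact (hD y h0 h1 h2).ne'
    · refine ContinuousOn.smul (ContinuousOn.inv₀ (c2.max c1).continuousOn ?_)
        (c4.add ((continuous_const.max (c1.sub c2)).smul continuous_const)).continuousOn
      rintro y ⟨h0, h1, h2⟩
      rw [max_comm]
      exact (hD y h0 h1 h2).ne'
  · intro y h0 h1 hch
    have hDy := hD y h0 h1 hch
    -- positivity of `s` gives a positive coordinate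
    have eLx : 0 < sL (part QL y) → ∃ v, 0 < part QL y v := by
      intro h
      by_contra hc
      push Not at hc
      exact absurd (sLz _ hc).1 h.ne'
    have eRx : 0 < sR (part QR y) → ∃ v, 0 < part QR y v := by
      intro h
      by_contra hc
      push Not at hc
      exact absurd (sRz _ hc).1 h.ne'
    have zL0 : sL (part QL y) = 0 → fL (part QL y) = 0 := by
      intro h
      by_contra hc
      by_cases hx : ∃ v, 0 < part QL y v
      · exact absurd h (sLp _ hx).ne'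
      · push Not at hx
        exact hc (sLz _ hx).2
    have zR0 : sR (part QR y) = 0 → fR (part QR y) = 0 := by
      intro h
      by_contra hc
      by_cases hx : ∃ v, 0 < part QR y v
      · exact absurd h (sRp _ hx).ne'
      · push Not at hx
        exact hc (sRz _ hx).2
    refine ⟨?_, ?_, ?_⟩
    · refine side_mem hKL heL (sL0 _) (sR0 _) hDy zL0 (fun h => ?_)
      obtain ⟨v, hv, hv'⟩ := sLm _ (eLx h)
      exact hv' KL hKL (fun σ hσ hp => (cL y hch σ ⟨v, hσ⟩ hp).1)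
    · refine side_mem hKR heR (sR0 _) (sL0 _) (by rw [max_comm]; exact hDy) zR0 (fun h => ?_)
      obtain ⟨v, hv, hv'⟩ := sRm _ (eRx h)
      exact hv' KR hKR (fun σ hσ hp => (cR y hch σ ⟨v, hσ⟩ hp).1)
    · rcases le_total (sR (part QR y)) (sL (part QL y)) with h | h
      · have hp : 0 < sL (part QL y) := by rwa [max_eq_left h] at hDy
        obtain ⟨v, hv, hv'⟩ := sLm _ (eLx hp)
        refine ⟨v, (part_pos.1 hv).1, Or.inl ?_⟩
        show (max (sL (part QL y)) (sR (part QR y)))⁻¹ •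
          (fL (part QL y) + max 0 (sR (part QR y) - sL (part QL y)) • eL) ∈ L v
        rw [side_eq h]
        exact hv' (L v) (hL v) (fun σ hσ hp => (cL y hch σ ⟨v, hσ⟩ hp).2 v hσ)
      · have hp : 0 < sR (part QR y) := by rwa [max_eq_right h] at hDy
        obtain ⟨v, hv, hv'⟩ := sRm _ (eRx hp)
        refine ⟨v, (part_pos.1 hv).1, Or.inr ?_⟩
        show (max (sR (part QR y)) (sL (part QL y)))⁻¹ •
          (fR (part QR y) + max 0 (sL (part QL y) - sR (part QR y)) • eR) ∈ R v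
        rw [side_eq h]
        exact hv' (R v) (hR v) (fun σ hσ hp => (cR y hch σ ⟨v, hσ⟩ hp).2 v hσ)

end Pool.Agent.Lib.MP_8fca14_co.Six
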