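import Pool.Agent.Lib.MP_8fca14_co.Six.CM
import Pool.Agent.Lib.MP_8fca14_co.Six.GM
import Pool.Agent.Lib.MP_8fca14_co.Six.BR2

set_option autoImplicit false

/-!
# GLR: the Brouwer argument
-/

namespace Pool.Agent.Lib.MP_8fca14_co.Six

open Set

theorem glr {V E : Type*} [Fintype V] [DecidableEq V] [NormedAddCommGroup E]
    [NormedSpace ℝ E] [FiniteDimensional ℝ E] (a b : V → ℝ) (hab : ∀ v, a v ≤ b v)
    (Rc : V → V → Prop) (hs : ∀ u v, Rc u v → Rc v u)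
    (L R : V → Set E) (KL KR : Set E) (hL : ∀ v, Convex ℝ (L v)) (hR : ∀ v, Convex ℝ (R v))
    (hLc : ∀ v, IsClosed (L v)) (hRc : ∀ v, IsClosed (R v))
    (hKL : Convex ℝ KL) (hKR : Convex ℝ KR) (hKLc : IsCompact KL) (hKRc : IsCompact KR)
    (hKL0 : KL.Nonempty) (hKR0 : KR.Nonempty)
    (H1L : ∀ σ : Finset V, σ.Nonempty → Chain a b σ →
      (∀ u ∈ σ, ∀ v ∈ σ, u ≠ v → ¬ Rc u v) → ∃ z ∈ KL, ∀ v ∈ σ, z ∈ L v)
    (H1R : ∀ σ : Finset V, σ.Nonempty → Chain a b σ →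
      (∀ u ∈ σ, ∀ v ∈ σ, u ≠ v → Rc u v) → ∃ z ∈ KR, ∀ v ∈ σ, z ∈ R v)
    (H2 : ∀ M : Finset V, M.Nonempty → Chain a b M →
      ∃ u ∈ M, (∀ v ∈ M, v ≠ u → Rc u v) ∨ (∀ v ∈ M, v ≠ u → ¬ Rc u v)) :
    ∃ wL ∈ KL, ∃ wR ∈ KR, ∀ M : Finset V, Chain a b M →
      (∀ v ∈ M, wL ∉ L v ∧ wR ∉ R v) → M.card ≤ 2 * Module.finrank ℝ E := by
  classical
  by_contra hno
  push Not at hno
  have hLn : ∀ v, (L v).Nonempty := fun v => by
    obtain ⟨z, -, hz⟩ := H1L {v} ⟨v, by simp⟩ (fun u hu w hw huw => absurd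
      ((Finset.mem_singleton.1 hu).trans (Finset.mem_singleton.1 hw).symm) huw)
      (fun u hu w hw huw => absurd
      ((Finset.mem_singleton.1 hu).trans (Finset.mem_singleton.1 hw).symm) huw)
    exact ⟨z, hz v (by simp)⟩
  have hRn : ∀ v, (R v).Nonempty := fun v => by
    obtain ⟨z, -, hz⟩ := H1R {v} ⟨v, by simp⟩ (fun u hu w hw huw => absurd
      ((Finset.mem_singleton.1 hu).trans (Finset.mem_singleton.1 hw).symm) huw)
      (fun u hu w hw huw => absurd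
      ((Finset.mem_singleton.1 hu).trans (Finset.mem_singleton.1 hw).symm) huw)
    exact ⟨z, hz v (by simp)⟩
  set δ : V → E × E → ℝ := fun v w => Metric.infDist w.1 (L v) * Metric.infDist w.2 (R v)
    with hδdef
  have hδ : ∀ v, Continuous (δ v) := fun v =>
    ((Metric.continuous_infDist_pt _).comp continuous_fst).mul
      ((Metric.continuous_infDist_pt _).comp continuous_snd)
  have hfin : Module.finrank ℝ (E × E) = 2 * Module.finrank ℝ E := by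
    rw [Module.finrank_prod]; ring
  have hch : ∀ w ∈ KL ×ˢ KR, ∃ M : Finset V, M.card = 2 * Module.finrank ℝ E + 1 ∧
      Chain a b M ∧ ∀ v ∈ M, 0 < δ v w := by
    rintro ⟨wL, wR⟩ ⟨h1, h2⟩
    obtain ⟨M, hM, hmiss, hcard⟩ := hno wL h1 wR h2
    obtain ⟨M', hM', hc'⟩ := Finset.exists_subset_card_eq (s := M)
      (n := 2 * Module.finrank ℝ E + 1) (by omega)
    refine ⟨M', hc', fun u hu v hv huv => hM u (hM' hu) v (hM' hv) huv, fun v hv => ?_⟩
    obtain ⟨m1, m2⟩ := hmiss v (hM' hv)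
    exact mul_pos (((hLc v).notMem_iff_infDist_pos (hLn v)).1 m1)
      (((hRc v).notMem_iff_infDist_pos (hRn v)).1 m2)
  obtain ⟨f, fc, f0, f1, f2, f3⟩ := chain_map (2 * Module.finrank ℝ E) hfin a b hab
    (KL ×ˢ KR) (hKLc.prod hKRc) δ hδ hch
  obtain ⟨g, gc, hg⟩ := g_map a b Rc hs L R KL KR hL hR hKL hKR hKL0 hKR0 H1L H1R H2
  obtain ⟨w, hw, hfix⟩ := brouwer_convex (KL ×ˢ KR) (hKLc.prod hKRc) (hKL.prod hKR)
    (hKL0.prod hKR0) (fun w => g (f w))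
    (gc.comp fc.continuousOn (fun w hw => ⟨fun v => f0 w v, f1 w hw, f3 w hw⟩))
    (fun w hw => by
      obtain ⟨h1, h2, -⟩ := hg (f w) (fun v => f0 w v) (f1 w hw) (f3 w hw)
      exact ⟨h1, h2⟩)
  obtain ⟨-, -, v, hv, hv'⟩ := hg (f w) (fun v => f0 w v) (f1 w hw) (f3 w hw)
  have hfix' : g (f w) = w := hfix
  rw [hfix'] at hv'
  have hpos := f2 w hw v hv
  rcases hv' with h | h
  · have : Metric.infDist w.1 (L v) = 0 := Metric.infDist_zero_of_mem h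
    simp [hδdef, this] at hpos
  · have : Metric.infDist w.2 (R v) = 0 := Metric.infDist_zero_of_mem h
    simp [hδdef, this] at hpos

end Pool.Agent.Lib.MP_8fca14_co.Six
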