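import Pool.Agent.Lib.MP_8fca14_co.Six.Defs

set_option autoImplicit false

/-!
# PRJ: continuous retraction to a compact convex set
-/

namespace Pool.Agent.Lib.MP_8fca14_co.Six

open Set

theorem exists_retraction {E : Type*} [NormedAddCommGroup E] [InnerProductSpace ℝ E]
    [FiniteDimensional ℝ E] (K : Set E) (hK : IsCompact K) (hc : Convex ℝ K)
    (hne : K.Nonempty) :
    ∃ ρ : E → E, Continuous ρ ∧ (∀ x, ρ x ∈ K) ∧ ∀ x ∈ K, ρ x = x := by
  have h1 : ∀ x : E, ∃ v ∈ K, ∀ w ∈ K, inner ℝ (x - v) (w - v) ≤ 0 := by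
    intro x
    obtain ⟨v, hv, hv2⟩ := exists_norm_eq_iInf_of_complete_convex hne hK.isComplete hc x
    exact ⟨v, hv, (norm_eq_iInf_iff_real_inner_le_zero hc hv).1 hv2⟩
  choose ρ hρ hρ2 using h1
  refine ⟨ρ, ?_, hρ, ?_⟩
  · have hL : LipschitzWith 1 ρ := by
      refine LipschitzWith.of_dist_le_mul fun x y => ?_
      rw [dist_eq_norm, dist_eq_norm, NNReal.coe_one, one_mul]
      have a1 := hρ2 x (ρ y) (hρ y)
      have a2 := hρ2 y (ρ x) (hρ x)
      have key : ‖ρ x - ρ y‖ ^ 2 ≤ inner ℝ (x - y) (ρ x - ρ y) := by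
        rw [← real_inner_self_eq_norm_sq]
        have e1 : inner ℝ (x - ρ x) (ρ y - ρ x) = - inner ℝ (x - ρ x) (ρ x - ρ y) := by
          rw [← inner_neg_right, neg_sub]
        rw [e1] at a1
        have e2 : inner ℝ (x - y) (ρ x - ρ y) = inner ℝ (x - ρ x) (ρ x - ρ y)
            - inner ℝ (y - ρ y) (ρ x - ρ y) + inner ℝ (ρ x - ρ y) (ρ x - ρ y) := by
          rw [← inner_sub_left, ← inner_add_left]
          congr 1
          abel
        rw [e2]
        linarith
      have h2 : inner ℝ (x - y) (ρ x - ρ y) ≤ ‖x - y‖ * ‖ρ x - ρ y‖ := real_inner_le_norm _ _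
      by_contra hcon
      push Not at hcon
      have h3 : 0 < ‖ρ x - ρ y‖ := lt_of_le_of_lt (norm_nonneg _) hcon
      nlinarith
    exact hL.continuous
  · intro x hx
    have h := hρ2 x x hx
    rw [real_inner_self_eq_norm_sq] at h
    have h2 : ‖x - ρ x‖ = 0 := by
      have := sq_nonneg ‖x - ρ x‖
      have h3 : ‖x - ρ x‖ ^ 2 = 0 := le_antisymm h this
      exact pow_eq_zero_iff (two_ne_zero) |>.1 h3
    exact (sub_eq_zero.1 (norm_eq_zero.1 h2)).symm

end Pool.Agent.Lib.MP_8fca14_co.Six
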