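import Pool.Agent.Lib.MP_8fca14_co.Six.Defs

set_option autoImplicit false

/-!
# RED: reduction to compact sets
-/

namespace Pool.Agent.Lib.MP_8fca14_co.Six

open Set

theorem compact_reduction {V : Type*} [Fintype V] [DecidableEq V] (C : V → Set Pl)
    (hC : ∀ v, Convex ℝ (C v)) (hne : ∀ v, (C v).Nonempty) (h43 : FourThree C) :
    ∃ D : V → Set Pl, (∀ v, D v ⊆ C v) ∧ (∀ v, Convex ℝ (D v)) ∧ (∀ v, IsCompact (D v)) ∧
      (∀ v, (D v).Nonempty) ∧ FourThree D := by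
  classical
  set z : Finset V → Pl := fun σ => if h : ∃ x, ∀ v ∈ σ, x ∈ C v then h.choose else 0 with hz
  have hzs : ∀ σ : Finset V, (∃ x, ∀ v ∈ σ, x ∈ C v) → ∀ v ∈ σ, z σ ∈ C v := by
    intro σ h
    have h1 := h.choose_spec
    have h2 : z σ = h.choose := by
      rw [hz]
      simp only
      rw [dif_pos h]
    rw [h2]
    exact h1
  set P : V → Set Pl := fun v => z '' {σ : Finset V | v ∈ σ ∧ ∃ x, ∀ u ∈ σ, x ∈ C u} with hP
  have hfin : ∀ v, (P v).Finite := fun v => (Set.toFinite _).image _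
  have hmem : ∀ (v : V) (σ : Finset V), v ∈ σ → (∃ x, ∀ u ∈ σ, x ∈ C u) →
      z σ ∈ convexHull ℝ (P v) := fun v σ hv h =>
    subset_convexHull ℝ _ ⟨σ, ⟨hv, h⟩, rfl⟩
  have h3 : ∀ i j k : V, (C i ∩ C j ∩ C k).Nonempty →
      (convexHull ℝ (P i) ∩ convexHull ℝ (P j) ∩ convexHull ℝ (P k)).Nonempty := by
    rintro i j k ⟨x, ⟨hi, hj⟩, hk⟩
    have h : ∃ x, ∀ u ∈ ({i, j, k} : Finset V), x ∈ C u := by
      refine ⟨x, fun u hu => ?_⟩
      simp only [Finset.mem_insert, Finset.mem_singleton] at hu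
      rcases hu with rfl | rfl | rfl <;> assumption
    exact ⟨z {i, j, k}, ⟨hmem i _ (by simp) h, hmem j _ (by simp) h⟩, hmem k _ (by simp) h⟩
  refine ⟨fun v => convexHull ℝ (P v), fun v => ?_, fun v => convex_convexHull ℝ _,
    fun v => (hfin v).isCompact_convexHull (𝕜 := ℝ), fun v => ?_, ?_⟩
  · refine convexHull_min ?_ (hC v)
    rintro _ ⟨σ, ⟨hv, h⟩, rfl⟩
    exact hzs σ h v hv
  · obtain ⟨x, hx⟩ := hne v
    exact ⟨z {v}, hmem v {v} (by simp) ⟨x, by simpa using hx⟩⟩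
  · intro i j k l h1 h2 h4 h5 h6 h7
    rcases h43 i j k l h1 h2 h4 h5 h6 h7 with h | h | h | h
    · exact Or.inl (h3 _ _ _ h)
    · exact Or.inr (Or.inl (h3 _ _ _ h))
    · exact Or.inr (Or.inr (Or.inl (h3 _ _ _ h)))
    · exact Or.inr (Or.inr (Or.inr (h3 _ _ _ h)))

end Pool.Agent.Lib.MP_8fca14_co.Six
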