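import Pool.Agent.Lib.MP_8fca14_co.Six.Defs

set_option autoImplicit false

/-!
# SEP: continuous separators
-/

namespace Pool.Agent.Lib.MP_8fca14_co.Six

open Set

private theorem exists_gap {ι : Type*} [Fintype ι] (f : ι → ℝ) :
    ∃ γ : ℝ, 0 < γ ∧ ∀ i, 0 < f i → 2 * γ < f i := by
  classical
  rcases (Finset.univ.filter fun i => 0 < f i).eq_empty_or_nonempty with h | h
  · refine ⟨1, one_pos, fun i hi => ?_⟩
    have : i ∈ (Finset.univ.filter fun i => 0 < f i) := by simp [hi]
    rw [h] at this
    simp at this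
  · obtain ⟨j, hj, hmin⟩ := Finset.exists_min_image _ f h
    have hj' : 0 < f j := (Finset.mem_filter.1 hj).2
    refine ⟨f j / 3, by positivity, fun i hi => ?_⟩
    have := hmin i (by simp [hi])
    linarith

theorem separation {V W : Type*} [Fintype V] [TopologicalSpace W] (a b : V → ℝ)
    (hab : ∀ v, a v ≤ b v) (K : Set W) (hK : IsCompact K)
    (δ : V → W → ℝ) (hδ : ∀ v, Continuous (δ v)) (d : ℕ)
    (hch : ∀ w ∈ K, ∃ M : Finset V, M.card = d + 1 ∧ Chain a b M ∧ ∀ v ∈ M, 0 < δ v w) :
    ∃ x : ℕ → W → ℝ, (∀ i, Continuous (x i)) ∧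
      ∀ w ∈ K, ∀ i ≤ d, ∃ v, 0 < δ v w ∧ x i w < a v ∧ b v < x (i + 1) w := by
  classical
  rcases K.eq_empty_or_nonempty with hKe | ⟨w0, hw0⟩
  · subst hKe
    exact ⟨fun _ _ => 0, fun _ => continuous_const, fun w hw => absurd hw (notMem_empty w)⟩
  have hVne : Nonempty V := by
    obtain ⟨M, hM, -⟩ := hch w0 hw0
    have : 0 < M.card := by omega
    obtain ⟨v, -⟩ := Finset.card_pos.1 this
    exact ⟨v⟩
  -- uniform positivity
  obtain ⟨η0, hη0, hunif⟩ : ∃ η0 : ℝ, 0 < η0 ∧ ∀ w ∈ K, ∃ M : Finset V, M.card = d + 1 ∧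
      Chain a b M ∧ ∀ v ∈ M, η0 < δ v w := by
    set U : ℕ → Set W := fun n => ⋃ M ∈ {M : Finset V | M.card = d + 1 ∧ Chain a b M},
      ⋂ v ∈ M, {w | (1 : ℝ) / (n + 1) < δ v w} with hU
    have hUo : ∀ n, IsOpen (U n) := by
      intro n
      refine isOpen_biUnion fun M _ => ?_
      exact isOpen_biInter_finset fun v _ => isOpen_lt continuous_const (hδ v)
    have hUc : K ⊆ ⋃ n, U n := by
      intro w hw
      obtain ⟨M, hM1, hM2, hM3⟩ := hch w hw
      have hMne : M.Nonempty := Finset.card_pos.1 (by omega)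
      obtain ⟨v1, hv1, hmin⟩ := M.exists_min_image (fun v => δ v w) hMne
      obtain ⟨n, hn⟩ := exists_nat_one_div_lt (hM3 v1 hv1)
      refine mem_iUnion.2 ⟨n, mem_iUnion₂.2 ⟨M, ⟨hM1, hM2⟩, mem_iInter₂.2 fun v hv => ?_⟩⟩
      exact lt_of_lt_of_le hn (hmin v hv)
    have hUm : Monotone U := by
      intro m n hmn w hw
      obtain ⟨M, hM, hw2⟩ := mem_iUnion₂.1 hw
      refine mem_iUnion₂.2 ⟨M, hM, mem_iInter₂.2 fun v hv => ?_⟩
      have h1 : (1 : ℝ) / ((m : ℝ) + 1) < δ v w := mem_iInter₂.1 hw2 v hv
      show (1 : ℝ) / ((n : ℝ) + 1) < δ v w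
      exact lt_of_le_of_lt (Nat.one_div_le_one_div hmn) h1
    obtain ⟨n, hn⟩ := hK.elim_directed_cover U hUo hUc hUm.directed_le
    refine ⟨1 / (n + 1), Nat.one_div_pos_of_nat, fun w hw => ?_⟩
    obtain ⟨M, hM, hw2⟩ := mem_iUnion₂.1 (hn hw)
    exact ⟨M, hM.1, hM.2, fun v hv => mem_iInter₂.1 hw2 v hv⟩
  obtain ⟨γ, hγ, hgap⟩ := exists_gap (fun p : V × V => a p.2 - b p.1)
  obtain ⟨α, hα⟩ : ∃ α : ℝ, ∀ v, α + γ ≤ a v := by
    obtain ⟨v1, -, hmin⟩ := Finset.exists_min_image Finset.univ a Finset.univ_nonempty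
    exact ⟨a v1 - γ, fun v => by have := hmin v (Finset.mem_univ v); linarith⟩
  obtain ⟨β, hβ⟩ : ∃ β : ℝ, ∀ v, b v + 2 * γ ≤ β := by
    obtain ⟨v1, -, hmax⟩ := Finset.exists_max_image Finset.univ b Finset.univ_nonempty
    exact ⟨b v1 + 2 * γ, fun v => by have := hmax v (Finset.mem_univ v); linarith⟩
  set η : ℝ := η0 * γ ^ 2 with hη
  have hηpos : 0 < η := by positivity
  have hβb : ∀ v, 0 < β - b v := fun v => by have := hβ v; linarith
  set T : V → W → ℝ → ℝ := fun v w x =>
    b v + η / max (δ v w * max (a v - x) 0) (η / (β - b v)) with hT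
  set Y : W → ℝ → ℝ := fun w x => Finset.univ.inf' Finset.univ_nonempty fun v => T v w x with hY
  set x : ℕ → W → ℝ := fun i => Nat.rec (fun _ => α) (fun _ f w => Y w (f w)) i with hx
  have hx0 : ∀ w, x 0 w = α := fun w => rfl
  have hxs : ∀ i w, x (i + 1) w = Y w (x i w) := fun i w => rfl
  have hxc : ∀ i, Continuous (x i) := by
    intro i
    induction i with
    | zero => exact continuous_const
    | succ i ih =>
      have : x (i + 1) = fun w => Finset.univ.inf' Finset.univ_nonempty fun v => T v w (x i w) := rfl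
      rw [this]
      refine Continuous.finset_inf'_apply _ fun v _ => ?_
      refine continuous_const.add (continuous_const.div ?_ fun w => ?_)
      · exact (((hδ v).mul ((continuous_const.sub ih).max continuous_const))).max continuous_const
      · have : 0 < η / (β - b v) := div_pos hηpos (hβb v)
        exact (lt_of_lt_of_le this (le_max_right _ _)).ne'
  refine ⟨x, hxc, fun w hw i hi => ?_⟩
  -- (A)
  have factA : ∀ y : ℝ, Y w y < β → ∃ v, 0 < δ v w ∧ y < a v ∧ b v < Y w y := by
    intro y hy
    obtain ⟨v, -, hv⟩ := Finset.exists_mem_eq_inf' Finset.univ_nonempty (fun v => T v w y)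
    have hv' : Y w y = T v w y := hv
    have hmaxpos : 0 < max (δ v w * max (a v - y) 0) (η / (β - b v)) :=
      lt_of_lt_of_le (div_pos hηpos (hβb v)) (le_max_right _ _)
    have h1 : b v < Y w y := by
      rw [hv']
      show b v < b v + η / _
      have := div_pos hηpos hmaxpos
      linarith
    have h2 : η / (β - b v) < δ v w * max (a v - y) 0 := by
      by_contra hcon
      rw [not_lt] at hcon
      have h3 : T v w y = β := by
        show b v + η / max _ _ = β
        rw [max_eq_right hcon, div_div_cancel₀ hηpos.ne']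
        ring
      rw [hv', h3] at hy
      exact lt_irrefl _ hy
    have h4 : 0 < δ v w * max (a v - y) 0 := lt_trans (div_pos hηpos (hβb v)) h2
    have h5 : 0 ≤ max (a v - y) 0 := le_max_right _ _
    have h6 : 0 < max (a v - y) 0 := by
      rcases h5.lt_or_eq with h | h
      · exact h
      · rw [← h, mul_zero] at h4
        exact absurd h4 (lt_irrefl _)
    have h7 : 0 < δ v w := (pos_iff_pos_of_mul_pos h4).2 h6
    have h8 : 0 < a v - y := by
      rcases lt_max_iff.1 h6 with h | h
      · exact h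
      · exact absurd h (lt_irrefl _)
    exact ⟨v, h7, by linarith, h1⟩
  -- (B)
  obtain ⟨M, hM1, hM2, hM3⟩ := hunif w hw
  have step : ∀ y : ℝ, ∀ v, η0 < δ v w → y + γ ≤ a v → Y w y ≤ b v + γ := by
    intro y v hv hyv
    have h1 : Y w y ≤ T v w y := Finset.inf'_le _ (Finset.mem_univ v)
    refine h1.trans ?_
    show b v + η / max _ _ ≤ b v + γ
    have h2 : η0 * γ ≤ max (δ v w * max (a v - y) 0) (η / (β - b v)) := by
      refine le_trans ?_ (le_max_left _ _)
      have h3 : γ ≤ max (a v - y) 0 := le_trans (by linarith) (le_max_left _ _)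
      exact mul_le_mul hv.le h3 hγ.le (lt_trans hη0 hv).le
    have h4 : 0 < η0 * γ := by positivity
    have h5 : η / max (δ v w * max (a v - y) 0) (η / (β - b v)) ≤ η / (η0 * γ) :=
      div_le_div_of_nonneg_left hηpos.le h4 h2
    have h6 : η / (η0 * γ) = γ := by
      rw [hη]
      field_simp
    linarith
  have claim : ∀ j, j ≤ d + 1 → (M.filter fun v => ¬ (x j w + γ ≤ a v)).card ≤ j ∧
      (∀ i, i < j → x (i + 1) w < β) := by
    intro j
    induction j with
    | zero =>
      intro _
      refine ⟨?_, fun i hi => absurd hi (Nat.not_lt_zero i)⟩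
      rw [Nat.le_zero, Finset.card_eq_zero, Finset.filter_eq_empty_iff]
      intro v _ hcon
      exact hcon (by rw [hx0]; exact hα v)
    | succ j ih =>
      intro hj
      obtain ⟨ih1, ih2⟩ := ih (by omega)
      have hne : (M.filter fun v => x j w + γ ≤ a v).Nonempty := by
        rw [← Finset.card_pos]
        have := Finset.card_filter_add_card_filter_not (s := M) (fun v => x j w + γ ≤ a v)
        omega
      obtain ⟨v, hv, hmin⟩ := Finset.exists_min_image _ b hne
      obtain ⟨hvM, hvx⟩ := Finset.mem_filter.1 hv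
      have hle : x (j + 1) w ≤ b v + γ := by
        rw [hxs]
        exact step _ v (hM3 v hvM) hvx
      refine ⟨?_, fun i hi => ?_⟩
      · have hsub : (M.filter fun v => ¬ (x (j + 1) w + γ ≤ a v)) ⊆
            insert v (M.filter fun v => ¬ (x j w + γ ≤ a v)) := by
          intro u hu
          obtain ⟨huM, hux⟩ := Finset.mem_filter.1 hu
          rw [Finset.mem_insert, Finset.mem_filter]
          by_cases huv : u = v
          · exact Or.inl huv
          · refine Or.inr ⟨huM, fun hahead => hux ?_⟩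
            have hb : b v ≤ b u := hmin u (Finset.mem_filter.2 ⟨huM, hahead⟩)
            have hlt : b v < a u := by
              rcases hM2 v hvM u huM (fun h => huv h.symm) with h | h
              · exact h
              · have := hab v
                linarith
            have := hgap (v, u) (by show 0 < a u - b v; linarith)
            simp only at this
            linarith
        exact (Finset.card_le_card hsub).trans ((Finset.card_insert_le _ _).trans (by omega))
      · rcases Nat.lt_succ_iff_lt_or_eq.1 hi with h | h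
        · exact ih2 i h
        · rw [h]
          have := hβ v
          linarith
  have hlt := (claim (d + 1) le_rfl).2 i (by omega)
  rw [hxs] at hlt ⊢
  exact factA _ hlt

end Pool.Agent.Lib.MP_8fca14_co.Six
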