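import Pool.Agent.Lib.MP_8fca14_co.Six.Defs

set_option autoImplicit false

/-!
# The star case: all data which are needed for the m-family theorem
-/

namespace Pool.Agent.Lib.MP_8fca14_co.Six

open Set

namespace StarAux

/-- Helly's theorem in the plane, pointwise form. -/
theorem helly3 {V : Type*} [DecidableEq V] (C : V → Set Pl) (hC : ∀ v, Convex ℝ (C v))
    (T : Finset V) (h1 : ∀ u ∈ T, (C u).Nonempty)
    (h2 : ∀ u ∈ T, ∀ v ∈ T, u ≠ v → (C u ∩ C v).Nonempty)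
    (h3 : ∀ u ∈ T, ∀ v ∈ T, ∀ w ∈ T, u ≠ v → u ≠ w → v ≠ w → (C u ∩ C v ∩ C w).Nonempty) :
    ∃ z, ∀ v ∈ T, z ∈ C v := by
  have key : (⋂ v ∈ T, C v).Nonempty := by
    refine Convex.helly_theorem' (𝕜 := ℝ) (fun v _ => hC v) ?_
    intro I hI hcard
    have hcard' : I.card ≤ 3 := by simpa using hcard
    interval_cases hc : I.card
    · rw [Finset.card_eq_zero] at hc
      subst hc
      simp
    · obtain ⟨v, rfl⟩ := Finset.card_eq_one.1 hc
      simpa using h1 v (hI (by simp))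
    · obtain ⟨u, v, huv, rfl⟩ := Finset.card_eq_two.1 hc
      obtain ⟨x, hxu, hxv⟩ := h2 u (hI (by simp)) v (hI (by simp)) huv
      exact ⟨x, by simp [hxu, hxv]⟩
    · obtain ⟨u, v, w, huv, huw, hvw, rfl⟩ := Finset.card_eq_three.1 hc
      obtain ⟨x, ⟨hxu, hxv⟩, hxw⟩ := h3 u (hI (by simp)) v (hI (by simp)) w (hI (by simp))
        huv huw hvw
      exact ⟨x, by simp [hxu, hxv, hxw]⟩
  obtain ⟨z, hz⟩ := key
  rw [Set.mem_iInter₂] at hz
  exact ⟨z, hz⟩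

theorem rot {E : Type*} {A B D : Set E} (h : (A ∩ B ∩ D).Nonempty) : (B ∩ D ∩ A).Nonempty := by
  obtain ⟨x, ⟨h1, h2⟩, h3⟩ := h
  exact ⟨x, ⟨h2, h3⟩, h1⟩

theorem swp {E : Type*} {A B D : Set E} (h : (A ∩ B ∩ D).Nonempty) : (B ∩ A ∩ D).Nonempty := by
  obtain ⟨x, ⟨h1, h2⟩, h3⟩ := h
  exact ⟨x, ⟨h2, h1⟩, h3⟩

/-- A convex set with a point on either side of the line meets the line. -/
theorem meets_line' (D : Set Pl) (hD : Convex ℝ D) (ℓ : Pl →L[ℝ] ℝ) (c : ℝ)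
    (x : Pl) (hx : x ∈ D) (hxc : ℓ x < c) (y : Pl) (hy : y ∈ D) (hyc : c < ℓ y) :
    ∃ z ∈ D, ℓ z = c := by
  have hpos : 0 < ℓ y - ℓ x := by linarith
  set r : ℝ := (c - ℓ x) / (ℓ y - ℓ x) with hr
  have hr0 : 0 ≤ r := by rw [hr]; apply div_nonneg <;> linarith
  have hr1 : r ≤ 1 := by rw [hr, div_le_one hpos]; linarith
  refine ⟨(1 - r) • x + r • y, hD hx hy (by linarith) hr0 (by ring), ?_⟩
  rw [map_add, map_smul, map_smul, smul_eq_mul, smul_eq_mul]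
  have h3 : r * (ℓ y - ℓ x) = c - ℓ x := by rw [hr]; field_simp
  linarith

end StarAux

open StarAux

/-- In the star case with centre `a₀` the members which are not `a₀` and meet `C a₀` form an
m-family with `KL = C a₀` and a compact convex set `KR` contained in all members disjoint from
`C a₀`. -/
theorem star_core {V : Type*} [Fintype V] [DecidableEq V] (C : V → Set Pl)
    (hC : ∀ v, Convex ℝ (C v)) (hCc : ∀ v, IsCompact (C v)) (hne : ∀ v, (C v).Nonempty)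
    (h43 : FourThree C) (a₀ b₀ : V) (hab : b₀ ≠ a₀) (hdis : Disjoint (C a₀) (C b₀))
    (hstar : ∀ u v, u ≠ a₀ → v ≠ a₀ → (C u ∩ C v).Nonempty) :
    ∃ (KR : Set Pl) (ℓ : Pl →L[ℝ] ℝ) (c : ℝ), Convex ℝ KR ∧ IsCompact KR ∧ KR.Nonempty ∧
      ℓ ≠ 0 ∧ (∀ v, v ≠ a₀ → ¬ (C a₀ ∩ C v).Nonempty → KR ⊆ C v) ∧
      (∀ v : {v : V // v ≠ a₀ ∧ (C a₀ ∩ C v).Nonempty}, ∃ x ∈ C v, ℓ x = c) ∧
      (∀ σ : Finset {v : V // v ≠ a₀ ∧ (C a₀ ∩ C v).Nonempty}, σ.Nonempty →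
        (∀ u ∈ σ, ∀ v ∈ σ, u ≠ v → ∀ x ∈ C u ∩ C v, ℓ x < c) →
          ∃ z ∈ C a₀, ∀ v ∈ σ, z ∈ C v ∩ C a₀) ∧
      (∀ σ : Finset {v : V // v ≠ a₀ ∧ (C a₀ ∩ C v).Nonempty}, σ.Nonempty →
        (∀ u ∈ σ, ∀ v ∈ σ, u ≠ v → ∀ x ∈ C u ∩ C v, c < ℓ x) →
          ∃ z ∈ KR, ∀ v ∈ σ, z ∈ C v ∩ KR) := by
  classical
  set B : Finset V := Finset.univ.filter (fun v => v ≠ a₀ ∧ ¬ (C a₀ ∩ C v).Nonempty) with hB
  have hBmem : ∀ v, v ∈ B ↔ v ≠ a₀ ∧ ¬ (C a₀ ∩ C v).Nonempty := by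
    intro v; simp [hB]
  have hb₀ : b₀ ∈ B := by
    rw [hBmem]
    refine ⟨hab, ?_⟩
    rintro ⟨x, hx1, hx2⟩
    exact Set.disjoint_left.1 hdis hx1 hx2
  -- two members of B and any other member different from the centre
  have f2 : ∀ b ∈ B, ∀ b' ∈ B, ∀ x, b ≠ b' → x ≠ a₀ → x ≠ b → x ≠ b' →
      (C b ∩ C b' ∩ C x).Nonempty := by
    intro b hb b' hb' x hbb hxa hxb hxb'
    rw [hBmem] at hb hb'
    rcases h43 a₀ b b' x hb.1.symm hb'.1.symm hxa.symm hbb hxb.symm hxb'.symm with h | h | h | h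
    · obtain ⟨y, ⟨h1, h2⟩, _⟩ := h
      exact absurd ⟨y, h1, h2⟩ hb.2
    · obtain ⟨y, ⟨h1, h2⟩, _⟩ := h
      exact absurd ⟨y, h1, h2⟩ hb.2
    · obtain ⟨y, ⟨h1, h2⟩, _⟩ := h
      exact absurd ⟨y, h1, h2⟩ hb'.2
    · exact h
  have f3 : ∀ b ∈ B, ∀ u v, u ≠ v → u ≠ a₀ → v ≠ a₀ → u ≠ b → v ≠ b →
      (C a₀ ∩ C u ∩ C v).Nonempty ∨ (C b ∩ C u ∩ C v).Nonempty := by
    intro b hb u v huv hua hva hub hvb
    rw [hBmem] at hb
    rcases h43 a₀ b u v hb.1.symm hua.symm hva.symm hub.symm hvb.symm huv with h | h | h | h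
    · obtain ⟨y, ⟨h1, h2⟩, _⟩ := h
      exact absurd ⟨y, h1, h2⟩ hb.2
    · obtain ⟨y, ⟨h1, h2⟩, _⟩ := h
      exact absurd ⟨y, h1, h2⟩ hb.2
    · exact Or.inl h
    · exact Or.inr h
  -- separation of the centre from b₀
  obtain ⟨ℓ, s, t, hℓs, hst, hℓt⟩ := geometric_hahn_banach_compact_closed (hC a₀) (hCc a₀)
    (hC b₀) (hCc b₀).isClosed hdis
  set c : ℝ := (s + t) / 2 with hc
  have hac : ∀ x ∈ C a₀, ℓ x < c := fun x hx => by
    have := hℓs x hx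
    rw [hc]; linarith
  have hbc : ∀ x ∈ C b₀, c < ℓ x := fun x hx => by
    have := hℓt x hx
    rw [hc]; linarith
  have hℓ : ℓ ≠ 0 := by
    rintro rfl
    obtain ⟨x, hx⟩ := hne a₀
    obtain ⟨y, hy⟩ := hne b₀
    have h1 := hac x hx
    have h2 := hbc y hy
    simp at h1 h2
    linarith
  set KR : Set Pl := ⋂ v ∈ B, C v with hKR
  have hKRb : ∀ v ∈ B, KR ⊆ C v := by
    intro v hv x hx
    rw [hKR, Set.mem_iInter₂] at hx
    exact hx v hv
  -- common points of B and a set of members on the right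
  have right : ∀ σ : Finset {v : V // v ≠ a₀ ∧ (C a₀ ∩ C v).Nonempty},
      (∀ u ∈ σ, ∀ v ∈ σ, u ≠ v → ∀ x ∈ C u ∩ C v, c < ℓ x) →
        ∃ z ∈ KR, ∀ v ∈ σ, z ∈ C (v : V) := by
    intro σ hσ
    have hσa : ∀ u ∈ σ.image Subtype.val, u ≠ a₀ ∧ u ∉ B := by
      intro u hu
      rw [Finset.mem_image] at hu
      obtain ⟨u', _, rfl⟩ := hu
      refine ⟨u'.2.1, ?_⟩
      rw [hBmem]
      intro h
      exact h.2 u'.2.2
    have hσr : ∀ u ∈ σ.image Subtype.val, ∀ v ∈ σ.image Subtype.val, u ≠ v →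
        ∀ x ∈ C u ∩ C v, c < ℓ x := by
      intro u hu v hv huv
      rw [Finset.mem_image] at hu hv
      obtain ⟨u', hu', rfl⟩ := hu
      obtain ⟨v', hv', rfl⟩ := hv
      exact hσ u' hu' v' hv' (fun h => huv (by rw [h]))
    set τ : Finset V := σ.image Subtype.val with hτ
    have hTa : ∀ u ∈ B ∪ τ, u ≠ a₀ := by
      intro u hu
      rcases Finset.mem_union.1 hu with h | h
      · exact ((hBmem u).1 h).1
      · exact (hσa u h).1
    -- one member of B and two of τ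
    have g1 : ∀ b ∈ B, ∀ u ∈ τ, ∀ v ∈ τ, u ≠ v → (C b ∩ C u ∩ C v).Nonempty := by
      intro b hb u hu v hv huv
      have hub : u ≠ b := fun h => (hσa u hu).2 (h ▸ hb)
      have hvb : v ≠ b := fun h => (hσa v hv).2 (h ▸ hb)
      rcases f3 b hb u v huv (hσa u hu).1 (hσa v hv).1 hub hvb with h | h
      · obtain ⟨y, ⟨h1, h2⟩, h3⟩ := h
        exact absurd (hσr u hu v hv huv y ⟨h2, h3⟩) (not_lt.2 (hac y h1).le)
      · exact h
    -- two members of B and one of τ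
    have g2 : ∀ b ∈ B, ∀ b' ∈ B, ∀ u ∈ τ, b ≠ b' → (C b ∩ C b' ∩ C u).Nonempty := by
      intro b hb b' hb' u hu hbb
      exact f2 b hb b' hb' u hbb (hσa u hu).1 (fun h => (hσa u hu).2 (h ▸ hb))
        (fun h => (hσa u hu).2 (h ▸ hb'))
    obtain ⟨z, hz⟩ := helly3 C hC (B ∪ τ) (fun u _ => hne u)
      (fun u hu v hv _ => hstar u v (hTa u hu) (hTa v hv)) (by
        intro u hu v hv w hw huv huw hvw
        rcases Finset.mem_union.1 hu with hu' | hu' <;>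
        rcases Finset.mem_union.1 hv with hv' | hv' <;>
        rcases Finset.mem_union.1 hw with hw' | hw'
        · exact f2 u hu' v hv' w huv (hTa w hw) huw.symm hvw.symm
        · exact g2 u hu' v hv' w hw' huv
        · exact swp (rot (g2 u hu' w hw' v hv' huw) |> rot) |> fun h => by
            obtain ⟨x, ⟨h1, h2⟩, h3⟩ := h
            exact ⟨x, ⟨by assumption, by assumption⟩, by assumption⟩
        · exact g1 u hu' v hv' w hw' hvw
        · obtain ⟨x, ⟨h1, h2⟩, h3⟩ := g2 v hv' w hw' u hu' hvw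
          exact ⟨x, ⟨h3, h1⟩, h2⟩
        · obtain ⟨x, ⟨h1, h2⟩, h3⟩ := g1 v hv' u hu' w hw' huw
          exact ⟨x, ⟨h2, h1⟩, h3⟩
        · obtain ⟨x, ⟨h1, h2⟩, h3⟩ := g1 w hw' u hu' v hv' huv
          exact ⟨x, ⟨h2, h3⟩, h1⟩
        · rcases h43 a₀ u v w (hTa u hu).symm (hTa v hv).symm (hTa w hw).symm huv huw hvw with
            h | h | h | h
          · obtain ⟨y, ⟨h1, h2⟩, h3⟩ := h
            exact absurd (hσr u hu' v hv' huv y ⟨h2, h3⟩) (not_lt.2 (hac y h1).le)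
          · obtain ⟨y, ⟨h1, h2⟩, h3⟩ := h
            exact absurd (hσr u hu' w hw' huw y ⟨h2, h3⟩) (not_lt.2 (hac y h1).le)
          · obtain ⟨y, ⟨h1, h2⟩, h3⟩ := h
            exact absurd (hσr v hv' w hw' hvw y ⟨h2, h3⟩) (not_lt.2 (hac y h1).le)
          · exact h)
    refine ⟨z, ?_, fun v hv => hz v ?_⟩
    · rw [hKR, Set.mem_iInter₂]
      intro v hv
      exact hz v (Finset.mem_union_left _ hv)
    · exact Finset.mem_union_right _ (Finset.mem_image_of_mem _ hv)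
  have left : ∀ σ : Finset {v : V // v ≠ a₀ ∧ (C a₀ ∩ C v).Nonempty},
      (∀ u ∈ σ, ∀ v ∈ σ, u ≠ v → ∀ x ∈ C u ∩ C v, ℓ x < c) →
        ∃ z ∈ C a₀, ∀ v ∈ σ, z ∈ C (v : V) := by
    intro σ hσ
    have hσa : ∀ u ∈ σ.image Subtype.val, u ≠ a₀ ∧ (C a₀ ∩ C u).Nonempty ∧ u ≠ b₀ := by
      intro u hu
      rw [Finset.mem_image] at hu
      obtain ⟨u', _, rfl⟩ := hu
      refine ⟨u'.2.1, u'.2.2, ?_⟩
      intro h
      have := ((hBmem b₀).1 hb₀).2
      rw [← h] at this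
      exact this u'.2.2
    have hσr : ∀ u ∈ σ.image Subtype.val, ∀ v ∈ σ.image Subtype.val, u ≠ v →
        ∀ x ∈ C u ∩ C v, ℓ x < c := by
      intro u hu v hv huv
      rw [Finset.mem_image] at hu hv
      obtain ⟨u', hu', rfl⟩ := hu
      obtain ⟨v', hv', rfl⟩ := hv
      exact hσ u' hu' v' hv' (fun h => huv (by rw [h]))
    set τ : Finset V := σ.image Subtype.val with hτ
    have g1 : ∀ u ∈ τ, ∀ v ∈ τ, u ≠ v → (C a₀ ∩ C u ∩ C v).Nonempty := by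
      intro u hu v hv huv
      rcases f3 b₀ hb₀ u v huv (hσa u hu).1 (hσa v hv).1 (hσa u hu).2.2 (hσa v hv).2.2 with
        h | h
      · exact h
      · obtain ⟨y, ⟨h1, h2⟩, h3⟩ := h
        exact absurd (hσr u hu v hv huv y ⟨h2, h3⟩) (not_lt.2 (hbc y h1).le)
    have hp : ∀ u ∈ insert a₀ τ, ∀ v ∈ insert a₀ τ, u ≠ v → (C u ∩ C v).Nonempty := by
      intro u hu v hv huv
      rcases Finset.mem_insert.1 hu with hu' | hu' <;> rcases Finset.mem_insert.1 hv with hv' | hv'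
      · exact absurd (hu'.trans hv'.symm) huv
      · subst hu'; exact (hσa v hv').2.1
      · subst hv'
        obtain ⟨x, h1, h2⟩ := (hσa u hu').2.1
        exact ⟨x, h2, h1⟩
      · exact hstar u v (hσa u hu').1 (hσa v hv').1
    obtain ⟨z, hz⟩ := helly3 C hC (insert a₀ τ) (fun u _ => hne u) hp (by
        intro u hu v hv w hw huv huw hvw
        rcases Finset.mem_insert.1 hu with hu' | hu' <;>
        rcases Finset.mem_insert.1 hv with hv' | hv' <;>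
        rcases Finset.mem_insert.1 hw with hw' | hw'
        · exact absurd (hu'.trans hv'.symm) huv
        · exact absurd (hu'.trans hv'.symm) huv
        · exact absurd (hu'.trans hw'.symm) huw
        · subst hu'; exact g1 v hv' w hw' hvw
        · exact absurd (hv'.trans hw'.symm) hvw
        · subst hv'
          obtain ⟨x, ⟨h1, h2⟩, h3⟩ := g1 u hu' w hw' huw
          exact ⟨x, ⟨h2, h1⟩, h3⟩
        · subst hw'
          obtain ⟨x, ⟨h1, h2⟩, h3⟩ := g1 u hu' v hv' huv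
          exact ⟨x, ⟨h2, h3⟩, h1⟩
        · rcases h43 b₀ u v w (hσa u hu').2.2.symm (hσa v hv').2.2.symm (hσa w hw').2.2.symm
            huv huw hvw with h | h | h | h
          · obtain ⟨y, ⟨h1, h2⟩, h3⟩ := h
            exact absurd (hσr u hu' v hv' huv y ⟨h2, h3⟩) (not_lt.2 (hbc y h1).le)
          · obtain ⟨y, ⟨h1, h2⟩, h3⟩ := h
            exact absurd (hσr u hu' w hw' huw y ⟨h2, h3⟩) (not_lt.2 (hbc y h1).le)
          · obtain ⟨y, ⟨h1, h2⟩, h3⟩ := h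
            exact absurd (hσr v hv' w hw' hvw y ⟨h2, h3⟩) (not_lt.2 (hbc y h1).le)
          · exact h)
    exact ⟨z, hz a₀ (Finset.mem_insert_self _ _), fun v hv =>
      hz v (Finset.mem_insert_of_mem (Finset.mem_image_of_mem _ hv))⟩
  have hKRne : KR.Nonempty := by
    obtain ⟨z, hz, _⟩ := right ∅ (by simp)
    exact ⟨z, hz⟩
  have hKRc : IsCompact KR := by
    apply (hCc b₀).of_isClosed_subset _ (hKRb b₀ hb₀)
    rw [hKR]
    exact isClosed_biInter fun v _ => (hCc v).isClosed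
  refine ⟨KR, ℓ, c, ?_, hKRc, hKRne, hℓ, ?_, ?_, ?_, ?_⟩
  · rw [hKR]
    exact convex_iInter₂ fun v _ => hC v
  · intro v hv hv2
    exact hKRb v ((hBmem v).2 ⟨hv, hv2⟩)
  · intro v
    obtain ⟨x, hx1, hx2⟩ := v.2.2
    obtain ⟨z, hz, hzv⟩ := right {v} (by
      intro u hu w hw huw
      rw [Finset.mem_singleton] at hu hw
      exact absurd (hu.trans hw.symm) huw)
    have hzb : z ∈ C b₀ := hKRb b₀ hb₀ hz
    exact meets_line' (C v) (hC v) ℓ c x hx2 (hac x hx1) z (hzv v (by simp)) (hbc z hzb)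
  · intro σ _ hσ
    obtain ⟨z, hz, hzv⟩ := left σ hσ
    exact ⟨z, hz, fun v hv => ⟨hzv v hv, hz⟩⟩
  · intro σ _ hσ
    obtain ⟨z, hz, hzv⟩ := right σ hσ
    exact ⟨z, hz, fun v hv => ⟨hzv v hv, hz⟩⟩

end Pool.Agent.Lib.MP_8fca14_co.Six
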